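import Pool.Agent.H98.NX.Ek
import Pool.Agent.H98.NX.Eh

set_option autoImplicit false

/-!
# MP_b319aa_NA, block M (PI helper33): definitions (no row)

Near-minimisers of the standard energy, the function `zz`, the cutoff `et`, the radial derivative of
the squared distance of two maps, the sum of the convexity gaps.
-/

namespace H33NM

open H50NA H98NX MeasureTheory Set Filter Topology Metric

variable {X : Type} [MetricSpace X]

/-- near-minimality on all compact subsets -/
structure NM (f : ℂ → X) (O : Set ℂ) (ep : ℝ) : Prop where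
  opn : IsOpen O
  lip : Lpo f O
  min : ∀ C ⊆ O, IsCompact C → ∀ g : ℂ → X, Lpo g O → (∀ x ∈ O \ C, g x = f x) →
    en f C ≤ en g C + ep

theorem nm_of_lm {f : ℂ → X} {O : Set ℂ} (h : LM f O) : NM f O 0 :=
  ⟨h.opn, h.lip, fun C hC hc g hg hgf => by rw [add_zero]; exact h.min C hC hc g hg hgf⟩

theorem lm_of_nm {f : ℂ → X} {O : Set ℂ} (h : NM f O 0) : LM f O :=
  ⟨h.opn, h.lip, fun C hC hc g hg hgf => by have := h.min C hC hc g hg hgf; rwa [add_zero] at this⟩

theorem NM.mono {f : ℂ → X} {O : Set ℂ} {e e' : ℝ} (h : NM f O e) (he : e ≤ e') : NM f O e' :=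
  ⟨h.opn, h.lip, fun C hC hc g hg hgf => (h.min C hC hc g hg hgf).trans (by linarith)⟩

theorem NM.nonneg {f : ℂ → X} {O : Set ℂ} {e : ℝ} (h : NM f O e) : 0 ≤ e := by
  have := h.min ∅ (empty_subset _) isCompact_empty f h.lip (fun _ _ => rfl)
  linarith

/-- `(r² - |y - c|²)/2` -/
noncomputable def zz (c : ℂ) (r : ℝ) (y : ℂ) : ℝ := (r ^ 2 - ‖y - c‖ ^ 2) / 2

/-- the cutoff `tau (r² - |y - c|²)₊/2` -/
noncomputable def et (tau : ℝ) (c : ℂ) (r : ℝ) (y : ℂ) : ℝ := tau * max 0 (zz c r y)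

/-- the derivative of `d²`, `d = dist (f ·) (g ·)`, in the direction `y - c` -/
noncomputable def rad (f g : ℂ → X) (c y : ℂ) : ℝ := 2 * dd f g y * fderiv ℝ (dd f g) y (y - c)

/-- the sum of the convexity gaps in the directions `1` and `I` -/
noncomputable def mm (f g : ℂ → X) (y : ℂ) : ℝ := mt f g 1 y + mt f g Complex.I y

/-- energy density -/
noncomputable def ed (f : ℂ → X) (y : ℂ) : ℝ := sp f 1 y ^ 2 + sp f Complex.I y ^ 2

theorem en_eq (f : ℂ → X) (S : Set ℂ) : en f S = ∫ y in S, ed f y := rfl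

theorem mm_nonneg (f g : ℂ → X) (y : ℂ) : 0 ≤ mm f g y :=
  add_nonneg ((sq_nonneg _).trans (le_max_left _ _)) ((sq_nonneg _).trans (le_max_left _ _))

theorem ed_nonneg (f : ℂ → X) (y : ℂ) : 0 ≤ ed f y := add_nonneg (sq_nonneg _) (sq_nonneg _)

end H33NM
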