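import Pool.Agent.H33.NM.Df

set_option autoImplicit false

/-!
# Row Ma: two competitors; constants

`Lpo`, `LM`, `en`, `Npc`: Pool/Agent/H50/NA/Defs.lean. `ip gm f g eta x = gm (f x) (g x) (eta x)` (H98.NX.Ek). `lpo_gm`, `lpo_const` in H98.NX.Ea.

1. comp_two. f' := ip gm f g eta is in Lpo O (lpo_gm) and for x ∈ O \ C: f' x = gm (f x) (g x) 0 = f x (hX.zero).
   hf.min C: en f C <= en f' C + e1. Same for g and g' = ip gm g f eta. Add.
2. nm_const. Lpo: lpo_const. For a competitor g: en (const) C = 0 (sp_const from H98.NX.Eb: sp of a constant is 0) and en g C >= 0 (setIntegral_nonneg or integral_nonneg: sum of two squares).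
3. en_nonneg: integral_nonneg.
-/

namespace H33NM

open H50NA H98NX MeasureTheory Set Filter Topology Metric

variable {X : Type} [MetricSpace X] {gm : X → X → ℝ → X}

theorem en_nonneg (f : ℂ → X) (S : Set ℂ) : 0 ≤ en f S := by
  rw [en_eq]
  exact integral_nonneg fun x => ed_nonneg f x

theorem comp_two (hX : Npc X gm) {f g : ℂ → X} {O : Set ℂ} {e1 e2 : ℝ} (hf : NM f O e1) (hg : NM g O e2)
    {C : Set ℂ} (hCO : C ⊆ O) (hC : IsCompact C) {eta : ℂ → ℝ} (he : Lpo eta O)
    (h01 : ∀ x ∈ O, 0 ≤ eta x ∧ eta x ≤ 1) (h0 : ∀ x ∈ O \ C, eta x = 0) :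
    en f C + en g C ≤ en (ip gm f g eta) C + en (ip gm g f eta) C + (e1 + e2) := by
  have hl1 : Lpo (ip gm f g eta) O := lpo_gm hX hf.lip hg.lip he h01
  have hl2 : Lpo (ip gm g f eta) O := lpo_gm hX hg.lip hf.lip he h01
  have h1 := hf.min C hCO hC _ hl1 (fun x hx => by unfold ip; rw [h0 x hx, hX.zero])
  have h2 := hg.min C hCO hC _ hl2 (fun x hx => by unfold ip; rw [h0 x hx, hX.zero])
  linarith

theorem nm_const (p : X) {O : Set ℂ} (hO : IsOpen O) : NM (fun _ : ℂ => p) O 0 := by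
  refine ⟨hO, lpo_const p O, fun C _ _ g _ _ => ?_⟩
  have h1 : en (fun _ : ℂ => p) C = 0 := by
    unfold en
    simp only [sp_const]
    simp
  rw [h1, add_zero]
  exact en_nonneg g C

end H33NM
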