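import Pool.Agent.H33.NM.Df

set_option autoImplicit false

/-!
# Row Mb1: the cutoff `et tau c r y = tau * max 0 (zz c r y)`, `zz c r y = (r² - ‖y - c‖²)/2`

1. zz_nonneg: ‖y - c‖ < r. zz_le: ‖y-c‖² >= 0. et_nonneg, et_le: 0 <= max 0 zz <= r²/2, so et <= tau r²/2 <= 1/2.
2. et_out: y ∉ ball c r: ‖y-c‖ >= r >= 0 so zz <= 0. et_in: y ∈ ball: zz > 0.
3. et_lip: |max 0 (zz y) - max 0 (zz y')| <= r * dist y y'. By symmetry zz y >= zz y'. If zz y <= 0 both are 0. Else a := ‖y-c‖ < r, a' := ‖y'-c‖ >= a, a' - a <= ‖y-y'‖.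
   If a' <= r: zz y - zz y' = (a'-a)(a'+a)/2 <= r (a'-a). If a' > r: zz y = (r-a)(r+a)/2 <= r (r-a) <= r (a'-a).
   (Alternatively: max 0 is 1-Lipschitz and ... only locally.)
4. et_lpo: lpo_lip (H98.NX.Ea) with K = tau*r.
5. et_fderiv: on the open ball et = tau * zz near y (EventuallyEq.fderiv_eq), and ‖y-c‖² = ((y-c).re)² + ((y-c).im)² has derivative t ↦ 2 inner: use HasFDerivAt.norm_sq / hasStrictFDerivAt_norm_sq,
   inner ℝ (y-c) t = (y-c).re * t.re + (y-c).im * t.im (Complex.inner).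
-/

namespace H33NM

open H50NA H98NX MeasureTheory Set Filter Topology Metric

theorem zz_nonneg {c : ℂ} {r : ℝ} {y : ℂ} (hy : y ∈ ball c r) : 0 ≤ zz c r y := by
  rw [mem_ball, dist_eq_norm] at hy
  unfold zz
  have h0 := norm_nonneg (y - c)
  have h1 : ‖y - c‖ ^ 2 ≤ r ^ 2 := pow_le_pow_left₀ h0 hy.le 2
  linarith

theorem zz_le (c : ℂ) (r : ℝ) (y : ℂ) : zz c r y ≤ r ^ 2 / 2 := by
  unfold zz
  have h0 := sq_nonneg ‖y - c‖
  linarith

theorem et_nonneg {tau : ℝ} (ht : 0 ≤ tau) (c : ℂ) (r : ℝ) (y : ℂ) : 0 ≤ et tau c r y := by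
  exact mul_nonneg ht (le_max_left _ _)

theorem et_le {tau : ℝ} (ht : 0 ≤ tau) (c : ℂ) {r : ℝ} (h : tau * r ^ 2 ≤ 1) (y : ℂ) : et tau c r y ≤ 1 / 2 := by
  have h1 : max 0 (zz c r y) ≤ r ^ 2 / 2 := max_le (by positivity) (zz_le c r y)
  have h2 := mul_le_mul_of_nonneg_left h1 ht
  unfold et
  linarith

theorem et_out (tau : ℝ) {c : ℂ} {r : ℝ} (hr : 0 < r) {y : ℂ} (hy : y ∉ ball c r) : et tau c r y = 0 := by
  rw [mem_ball, dist_eq_norm, not_lt] at hy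
  have h1 : r ^ 2 ≤ ‖y - c‖ ^ 2 := pow_le_pow_left₀ hr.le hy 2
  unfold et zz
  rw [max_eq_left (by linarith), mul_zero]

theorem et_in (tau : ℝ) {c : ℂ} {r : ℝ} {y : ℂ} (hy : y ∈ ball c r) : et tau c r y = tau * zz c r y := by
  unfold et
  rw [max_eq_right (zz_nonneg hy)]

private theorem Mb1_core {r a b : ℝ} (hr : 0 < r) (ha : 0 ≤ a) (hb : 0 ≤ b) (hab : a ≤ b) :
    |max 0 ((r ^ 2 - a ^ 2) / 2) - max 0 ((r ^ 2 - b ^ 2) / 2)| ≤ r * (b - a) := by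
  rcases le_total a r with h1 | h1
  · have e1 : 0 ≤ (r ^ 2 - a ^ 2) / 2 := by nlinarith
    rw [max_eq_right e1]
    rcases le_total b r with h2 | h2
    · have e2 : 0 ≤ (r ^ 2 - b ^ 2) / 2 := by nlinarith
      rw [max_eq_right e2, abs_le]
      constructor <;> nlinarith [mul_nonneg (sub_nonneg.2 hab) (sub_nonneg.2 h1),
        mul_nonneg (sub_nonneg.2 hab) (sub_nonneg.2 h2)]
    · have e2 : (r ^ 2 - b ^ 2) / 2 ≤ 0 := by nlinarith
      rw [max_eq_left e2, sub_zero, abs_of_nonneg e1]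
      nlinarith [mul_nonneg (sub_nonneg.2 h1) (sub_nonneg.2 h1), mul_nonneg hr.le (sub_nonneg.2 h2)]
  · have e1 : (r ^ 2 - a ^ 2) / 2 ≤ 0 := by nlinarith
    have e2 : (r ^ 2 - b ^ 2) / 2 ≤ 0 := by nlinarith
    rw [max_eq_left e1, max_eq_left e2, sub_zero, abs_zero]
    exact mul_nonneg hr.le (sub_nonneg.2 hab)

private theorem Mb1_core2 {r a b : ℝ} (hr : 0 < r) (ha : 0 ≤ a) (hb : 0 ≤ b) :
    |max 0 ((r ^ 2 - a ^ 2) / 2) - max 0 ((r ^ 2 - b ^ 2) / 2)| ≤ r * |a - b| := by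
  rcases le_total a b with h | h
  · rw [abs_sub_comm a b, abs_of_nonneg (sub_nonneg.2 h)]
    exact Mb1_core hr ha hb h
  · rw [abs_of_nonneg (sub_nonneg.2 h), abs_sub_comm]
    exact Mb1_core hr hb ha h

theorem et_lip {tau : ℝ} (ht : 0 ≤ tau) (c : ℂ) {r : ℝ} (hr : 0 < r) (x y : ℂ) :
    |et tau c r x - et tau c r y| ≤ tau * r * dist x y := by
  have h1 := Mb1_core2 hr (norm_nonneg (x - c)) (norm_nonneg (y - c))
  have h2 : |‖x - c‖ - ‖y - c‖| ≤ dist x y := by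
    rw [dist_eq_norm]
    refine (abs_norm_sub_norm_le _ _).trans (le_of_eq ?_)
    congr 1
    ring
  unfold et zz
  rw [← mul_sub, abs_mul, abs_of_nonneg ht, mul_assoc]
  exact mul_le_mul_of_nonneg_left (h1.trans (mul_le_mul_of_nonneg_left h2 hr.le)) ht

theorem et_lpo {tau : ℝ} (ht : 0 ≤ tau) (c : ℂ) {r : ℝ} (hr : 0 < r) (O : Set ℂ) : Lpo (et tau c r) O := by
  exact lpo_lip (et_lip ht c hr) O

theorem et_fderiv (tau : ℝ) {c : ℂ} {r : ℝ} {y : ℂ} (hy : y ∈ ball c r) (t : ℂ) :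
    fderiv ℝ (et tau c r) y t = -tau * ((y - c).re * t.re + (y - c).im * t.im) := by
  have h1 : et tau c r =ᶠ[𝓝 y] fun z => tau * ((r ^ 2 - ‖z - c‖ ^ 2) / 2) := by
    filter_upwards [isOpen_ball.mem_nhds hy] with z hz
    exact et_in tau hz
  have h2 : HasFDerivAt (fun z : ℂ => ‖z - c‖ ^ 2)
      (2 • (innerSL ℝ (y - c)).comp (ContinuousLinearMap.id ℝ ℂ)) y :=
    ((hasFDerivAt_id y).sub_const c).norm_sq
  have h3 := ((h2.const_sub (r ^ 2)).mul_const ((2 : ℝ)⁻¹)).const_mul tau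
  have h6 : (fun z : ℂ => tau * ((r ^ 2 - ‖z - c‖ ^ 2) / 2)) =
      fun z : ℂ => tau * ((r ^ 2 - ‖z - c‖ ^ 2) * 2⁻¹) := by
    funext z
    rw [div_eq_mul_inv]
  rw [h1.fderiv_eq, h6, h3.fderiv]
  simp only [ContinuousLinearMap.smul_apply, ContinuousLinearMap.neg_apply,
    ContinuousLinearMap.comp_apply, ContinuousLinearMap.id_apply, innerSL_apply_apply, Complex.inner,
    Complex.mul_re, Complex.conj_re, Complex.conj_im, smul_eq_mul, nsmul_eq_mul]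
  push_cast
  ring

end H33NM
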