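import Pool.Agent.H33.NM.Mb1

set_option autoImplicit false

/-!
# Row Mb2: the pointwise inequality for the two interpolated maps

Write eta = et tau c r, f' = ip gm f g eta, g' = ip gm g f eta, d = dd f g, D_t = fderiv ℝ · y t.
`ip_good` (H98.NX.Ek, with volume): for a.e. y ∈ O: Dlim for f, g, f', g', d and eta differentiable at y. `sp_two` for t = 1 and t = I (h01: et_nonneg, et_le, everywhere). Add:
  ed f' + ed g' <= ed f + ed g - 2 eta (1-eta) mm - (1-2 eta) (D_1 eta * 2 d D_1 d + D_I eta * 2 d D_I d) + 2 ((D_1 eta)² + (D_I eta)²) d².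
On the ball eta = tau zz (et_in), D_1 eta = -tau (y-c).re, D_I eta = -tau (y-c).im (et_fderiv),
(y-c).re D_1 d + (y-c).im D_I d = fderiv d y (y-c) (linearity, y - c = (y-c).re • 1 + (y-c).im • I), so the bracket is -tau * rad; (y-c).re² + (y-c).im² = ‖y-c‖² (Complex.sq_norm, Complex.normSq_apply).
lin_ri is the linearity statement (also used in rows Mc1, Mc2, Mf2).
-/

namespace H33NM

open H50NA H98NX MeasureTheory Set Filter Topology Metric

variable {X : Type} [MetricSpace X] {gm : X → X → ℝ → X}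

theorem lin_ri (A : ℂ →L[ℝ] ℝ) (v : ℂ) : A v = v.re * A 1 + v.im * A Complex.I := by
  have h : v = v.re • (1 : ℂ) + v.im • Complex.I := by
    apply Complex.ext <;> simp
  conv_lhs => rw [h]
  rw [map_add, map_smul, map_smul, smul_eq_mul, smul_eq_mul]

theorem two_pw (hX : Npc X gm) {f g : ℂ → X} {O : Set ℂ} (hO : IsOpen O) (hf : Lpo f O) (hg : Lpo g O)
    {c : ℂ} {r tau : ℝ} (hr : 0 < r) (hc : closedBall c r ⊆ O) (ht : 0 < tau) (htr : tau * r ^ 2 ≤ 1) :
    ∀ᵐ y, y ∈ ball c r → ed (ip gm f g (et tau c r)) y + ed (ip gm g f (et tau c r)) y ≤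
      ed f y + ed g y - 2 * (tau * zz c r y) * (1 - tau * zz c r y) * mm f g y
        + (1 - 2 * (tau * zz c r y)) * tau * rad f g c y + 2 * tau ^ 2 * (‖y - c‖ ^ 2 * dd f g y ^ 2) := by
  have hb : ∀ y : ℂ, 0 ≤ et tau c r y ∧ et tau c r y ≤ 1 := fun y =>
    ⟨et_nonneg ht.le c r y, (et_le ht.le c htr y).trans (by norm_num)⟩
  filter_upwards [ip_good (mu := (volume : Measure ℂ)) hX hO hf hg (et_lpo ht.le c hr O)
    (fun y _ => hb y)] with y hy hyb
  obtain ⟨a1, a2, a3, a4, a5, a6⟩ := hy (hc (ball_subset_closedBall hyb))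
  have h01 : ∀ᶠ z in 𝓝 y, 0 ≤ et tau c r z ∧ et tau c r z ≤ 1 := Eventually.of_forall hb
  have s1 := sp_two hX a1 a2 a3 a4 a5 a6 h01 1
  have s2 := sp_two hX a1 a2 a3 a4 a5 a6 h01 Complex.I
  rw [et_in tau hyb, et_fderiv tau hyb, Complex.one_re, Complex.one_im] at s1
  rw [et_in tau hyb, et_fderiv tau hyb, Complex.I_re, Complex.I_im] at s2
  have hl := lin_ri (fderiv ℝ (dd f g) y) (y - c)
  have hn : ‖y - c‖ ^ 2 = (y - c).re ^ 2 + (y - c).im ^ 2 := by
    rw [Complex.sq_norm, Complex.normSq_apply]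
    ring
  unfold ed mm rad
  rw [hl, hn]
  linarith

end H33NM
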