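import Pool.Agent.H33.NM.Mb2

set_option autoImplicit false

/-!
# Row Mc1: integrability and pointwise bounds

S measurable, S ⊆ C compact ⊆ O. d = dd f g; dd f g ∈ Lpo O (lpo_dist, H98.NX.Ea).
1. ed_int: sp_sq_int (H98.NX.Ee) for t = 1, I, add. en_mono: setIntegral_mono_set (nonneg). d2_int: dist_sq_int.
2. grad_le: a.e. y ∈ O: Dlim f y, Dlim g y (sp_lim, H98.NX.Ed), d differentiable (lpo_diff): sp_dist (H98.NX.Ek): |D_t d| <= sp f t + sp g t, so (D_t d)² <= 2 (sp f t)² + 2 (sp g t)²; add for t = 1, I.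
3. mm_le: mt f g t = max ((sp f t - sp g t)²) ((D_t d)²) <= (sp f t + sp g t)² <= 2 sp f t² + 2 sp g t² (sp >= 0: sp_nonneg, H98.NX.Eb).
4. rad_abs: rad = 2 d * fderiv d y (y-c), lin_ri + Cauchy-Schwarz: (fderiv d y (y-c))² <= ‖y-c‖² ((D_1 d)² + (D_I d)²) <= ‖y-c‖² * 2 (ed f + ed g); 2 d s <= d² + s² with s = sqrt(2(ed f + ed g)),
   |fderiv d y (y-c)| <= ‖y-c‖ s. So |rad| <= ‖y-c‖ (d² + 2 (ed f + ed g)).
-/

namespace H33NM

open H50NA H98NX MeasureTheory Set Filter Topology Metric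

variable {X : Type} [MetricSpace X] {gm : X → X → ℝ → X}

theorem ed_int {f : ℂ → X} {O C S : Set ℂ} (hO : IsOpen O) (hf : Lpo f O) (hC : IsCompact C) (hCO : C ⊆ O)
    (hS : MeasurableSet S) (hSC : S ⊆ C) : IntegrableOn (ed f) S := by
  have h1 := (sp_sq_int volume hO hf hC hCO hS hSC 1).1
  have h2 := (sp_sq_int volume hO hf hC hCO hS hSC Complex.I).1
  exact h1.add h2

theorem en_mono {f : ℂ → X} {O C S : Set ℂ} (hO : IsOpen O) (hf : Lpo f O) (hC : IsCompact C) (hCO : C ⊆ O)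
    (hSC : S ⊆ C) : en f S ≤ en f C := by
  rw [en_eq, en_eq]
  exact setIntegral_mono_set (ed_int hO hf hC hCO hC.measurableSet Subset.rfl)
    (Eventually.of_forall fun y => ed_nonneg f y) (Eventually.of_forall hSC)

theorem d2_int {f g : ℂ → X} {O C S : Set ℂ} (hO : IsOpen O) (hf : Lpo f O) (hg : Lpo g O) (hC : IsCompact C)
    (hCO : C ⊆ O) (hS : MeasurableSet S) (hSC : S ⊆ C) : IntegrableOn (fun y => dd f g y ^ 2) S :=
  (dist_sq_int volume hO hf hg hC hCO hS hSC).1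

private theorem Mc1_sq {D p q : ℝ} (h : |D| ≤ p + q) : D ^ 2 ≤ 2 * (p ^ 2 + q ^ 2) := by
  have h0 := abs_nonneg D
  have h1 : |D| ^ 2 ≤ (p + q) ^ 2 := pow_le_pow_left₀ h0 h 2
  rw [sq_abs] at h1
  nlinarith [sq_nonneg (p - q)]

theorem grad_le {f g : ℂ → X} {O : Set ℂ} (hO : IsOpen O) (hf : Lpo f O) (hg : Lpo g O) :
    ∀ᵐ y, y ∈ O → fderiv ℝ (dd f g) y 1 ^ 2 + fderiv ℝ (dd f g) y Complex.I ^ 2 ≤ 2 * (ed f y + ed g y) := by
  filter_upwards [sp_lim volume hO hf, sp_lim volume hO hg, lpo_diff volume hO (lpo_dist hf hg)] with y h1 h2 h3 hy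
  have a1 := Mc1_sq (sp_dist (h1 hy) (h2 hy) (h3 hy) 1)
  have a2 := Mc1_sq (sp_dist (h1 hy) (h2 hy) (h3 hy) Complex.I)
  unfold ed
  linarith

theorem mm_le {f g : ℂ → X} {O : Set ℂ} (hO : IsOpen O) (hf : Lpo f O) (hg : Lpo g O) :
    ∀ᵐ y, y ∈ O → mm f g y ≤ 2 * (ed f y + ed g y) := by
  filter_upwards [sp_lim volume hO hf, sp_lim volume hO hg, lpo_diff volume hO (lpo_dist hf hg)] with y h1 h2 h3 hy
  have key : ∀ t : ℂ, mt f g t y ≤ 2 * (sp f t y ^ 2 + sp g t y ^ 2) := by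
    intro t
    have p0 := sp_nonneg f t y
    have q0 := sp_nonneg g t y
    refine max_le ?_ (Mc1_sq (sp_dist (h1 hy) (h2 hy) (h3 hy) t))
    nlinarith [sq_nonneg (sp f t y + sp g t y)]
  have k1 := key 1
  have k2 := key Complex.I
  unfold mm ed
  linarith

theorem rad_abs {f g : ℂ → X} {O : Set ℂ} (hO : IsOpen O) (hf : Lpo f O) (hg : Lpo g O) (c : ℂ) :
    ∀ᵐ y, y ∈ O → |rad f g c y| ≤ ‖y - c‖ * (dd f g y ^ 2 + 2 * (ed f y + ed g y)) := by
  filter_upwards [grad_le hO hf hg] with y hy hyO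
  have h1 := hy hyO
  set A := fderiv ℝ (dd f g) y with hA
  set E := ed f y + ed g y with hE
  have hE0 : 0 ≤ 2 * E := by
    have := ed_nonneg f y
    have := ed_nonneg g y
    linarith
  have hd : 0 ≤ dd f g y := dist_nonneg
  have hn : ‖y - c‖ ^ 2 = (y - c).re ^ 2 + (y - c).im ^ 2 := by
    rw [Complex.sq_norm, Complex.normSq_apply]
    ring
  have hlin := lin_ri A (y - c)
  have hsq : A (y - c) ^ 2 ≤ (‖y - c‖ * Real.sqrt (2 * E)) ^ 2 := by
    rw [mul_pow, Real.sq_sqrt hE0, hn, hlin]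
    have h2 : ((y - c).re * A 1 + (y - c).im * A Complex.I) ^ 2 ≤
        ((y - c).re ^ 2 + (y - c).im ^ 2) * (A 1 ^ 2 + A Complex.I ^ 2) := by
      nlinarith [sq_nonneg ((y - c).re * A Complex.I - (y - c).im * A 1)]
    exact h2.trans (mul_le_mul_of_nonneg_left h1 (by positivity))
  have habs : |A (y - c)| ≤ ‖y - c‖ * Real.sqrt (2 * E) :=
    abs_le_of_sq_le_sq hsq (by positivity)
  have hr : |rad f g c y| = 2 * dd f g y * |A (y - c)| := by
    unfold rad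
    rw [abs_mul, abs_of_nonneg (by positivity : 0 ≤ 2 * dd f g y)]
  rw [hr]
  calc 2 * dd f g y * |A (y - c)| ≤ 2 * dd f g y * (‖y - c‖ * Real.sqrt (2 * E)) :=
        mul_le_mul_of_nonneg_left habs (by positivity)
    _ = ‖y - c‖ * (2 * dd f g y * Real.sqrt (2 * E)) := by ring
    _ ≤ ‖y - c‖ * (dd f g y ^ 2 + 2 * E) := by
        refine mul_le_mul_of_nonneg_left ?_ (norm_nonneg _)
        have hs := Real.sq_sqrt hE0
        nlinarith [sq_nonneg (dd f g y - Real.sqrt (2 * E))]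

end H33NM
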