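import Pool.Agent.H33.NM.Mc1

set_option autoImplicit false

/-!
# Row Mc2: measurability and integrability of mm and rad

S measurable, S ⊆ C compact ⊆ O. dd f g ∈ Lpo O (lpo_dist, H98.NX.Ea).
1. mm_int: AEStronglyMeasurable on restrict S: sp f t: Measurable (O.indicator (sp f t)) (sp_meas, lpo_cont) and O.indicator = itself on S (AEStronglyMeasurable.congr with ae_restrict);
   D_t d: measurable_fderiv_apply_const ℝ (dd f g) t. max: AEStronglyMeasurable.sup. Then Integrable.mono' with the bound 2 (ed f + ed g) (ae_restrict from mm_le, row Mc1).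
2. rad_int: measurable: lin_ri; d continuous on O (lpo_cont) so aestronglyMeasurable on S; bound: rad_abs and ‖y-c‖ bounded on C: Integrable.mono' with (B * (d² + 2(ed f + ed g))), B a bound of ‖y-c‖ on C (hC.exists_bound_of_continuousOn).
3. cm_int: a continuous, F integrable on S: IntegrableOn.continuousOn_mul needs S compact; so do it by Integrable.bdd_mul or: IntegrableOn F S with S ⊆ C: use (Integrable.mono' of the bound B*|F|), a is bounded by B on C.
-/

namespace H33NM

open H50NA H98NX MeasureTheory Set Filter Topology Metric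

variable {X : Type} [MetricSpace X]

theorem Mc2_sp {f : ℂ → X} {O S : Set ℂ} (hO : IsOpen O) (hf : Lpo f O) (hS : MeasurableSet S) (hSO : S ⊆ O)
    (t : ℂ) : AEStronglyMeasurable (sp f t) (volume.restrict S) := by
  have hm : Measurable (O.indicator (sp f t)) := sp_meas hO (lpo_cont hO hf) t
  refine hm.aestronglyMeasurable.congr ?_
  filter_upwards [ae_restrict_mem hS] with y hy
  exact indicator_of_mem (hSO hy) _

theorem Mc2_fd (f g : ℂ → X) (S : Set ℂ) (t : ℂ) :
    AEStronglyMeasurable (fun y => fderiv ℝ (dd f g) y t) (volume.restrict S) :=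
  (measurable_fderiv_apply_const ℝ (dd f g) t).aestronglyMeasurable

theorem Mc2_mt {f g : ℂ → X} {O S : Set ℂ} (hO : IsOpen O) (hf : Lpo f O) (hg : Lpo g O) (hS : MeasurableSet S)
    (hSO : S ⊆ O) (t : ℂ) : AEStronglyMeasurable (mt f g t) (volume.restrict S) :=
  (((Mc2_sp hO hf hS hSO t).sub (Mc2_sp hO hg hS hSO t)).pow 2).sup ((Mc2_fd f g S t).pow 2)

theorem Mc2_ae {S O : Set ℂ} (hS : MeasurableSet S) (hSO : S ⊆ O) {p : ℂ → Prop} (h : ∀ᵐ y, y ∈ O → p y) :
    ∀ᵐ y ∂(volume.restrict S), p y := by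
  rw [ae_restrict_iff' hS]
  filter_upwards [h] with y hy hyS
  exact hy (hSO hyS)

theorem mm_int {f g : ℂ → X} {O C S : Set ℂ} (hO : IsOpen O) (hf : Lpo f O) (hg : Lpo g O) (hC : IsCompact C)
    (hCO : C ⊆ O) (hS : MeasurableSet S) (hSC : S ⊆ C) : IntegrableOn (mm f g) S := by
  have hb : IntegrableOn (fun y => 2 * (ed f y + ed g y)) S :=
    ((ed_int hO hf hC hCO hS hSC).add (ed_int hO hg hC hCO hS hSC)).const_mul 2
  refine Integrable.mono' hb ?_ ?_
  · exact (Mc2_mt hO hf hg hS (hSC.trans hCO) 1).add (Mc2_mt hO hf hg hS (hSC.trans hCO) Complex.I)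
  · filter_upwards [Mc2_ae hS (hSC.trans hCO) (mm_le hO hf hg)] with y hy
    rw [Real.norm_of_nonneg (mm_nonneg f g y)]
    exact hy

theorem rad_int {f g : ℂ → X} {O C S : Set ℂ} (hO : IsOpen O) (hf : Lpo f O) (hg : Lpo g O) (hC : IsCompact C)
    (hCO : C ⊆ O) (hS : MeasurableSet S) (hSC : S ⊆ C) (c : ℂ) : IntegrableOn (rad f g c) S := by
  obtain ⟨B, hB⟩ := hC.exists_bound_of_continuousOn (f := fun y : ℂ => y - c) (by fun_prop)
  have hb : IntegrableOn (fun y => B * (dd f g y ^ 2 + 2 * (ed f y + ed g y))) S :=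
    ((d2_int hO hf hg hC hCO hS hSC).add
      (((ed_int hO hf hC hCO hS hSC).add (ed_int hO hg hC hCO hS hSC)).const_mul 2)).const_mul B
  have hdc : ContinuousOn (dd f g) O := lpo_cont hO (lpo_dist hf hg)
  have hdm : AEStronglyMeasurable (dd f g) (volume.restrict S) :=
    (hdc.mono (hSC.trans hCO)).aestronglyMeasurable hS
  refine Integrable.mono' hb ?_ ?_
  · have h1 : rad f g c = fun y => 2 * dd f g y * ((y - c).re * fderiv ℝ (dd f g) y 1 +
        (y - c).im * fderiv ℝ (dd f g) y Complex.I) := by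
      funext y
      show 2 * dd f g y * fderiv ℝ (dd f g) y (y - c) = _
      rw [lin_ri]
    rw [h1]
    have hre : AEStronglyMeasurable (fun y : ℂ => (y - c).re) (volume.restrict S) :=
      (Complex.continuous_re.comp (continuous_id.sub continuous_const)).aestronglyMeasurable
    have him : AEStronglyMeasurable (fun y : ℂ => (y - c).im) (volume.restrict S) :=
      (Complex.continuous_im.comp (continuous_id.sub continuous_const)).aestronglyMeasurable
    exact (hdm.const_mul 2).mul ((hre.mul (Mc2_fd f g S 1)).add (him.mul (Mc2_fd f g S Complex.I)))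
  · filter_upwards [Mc2_ae hS (hSC.trans hCO) (rad_abs hO hf hg c), ae_restrict_mem hS] with y hy hyS
    rw [Real.norm_eq_abs]
    refine hy.trans ?_
    refine mul_le_mul_of_nonneg_right (hB y (hSC hyS)) ?_
    have h1 := ed_nonneg f y
    have h2 := ed_nonneg g y
    positivity

theorem cm_int {F a : ℂ → ℝ} {C S : Set ℂ} (hC : IsCompact C) (hSC : S ⊆ C) (ha : Continuous a)
    (hF : IntegrableOn F S) : IntegrableOn (fun y => a y * F y) S := by
  obtain ⟨B, hB⟩ := hC.exists_bound_of_continuousOn (f := a) ha.continuousOn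
  have hb : Integrable (fun y => B * ‖F y‖) (volume.restrict S) := hF.norm.const_mul B
  refine Integrable.mono' hb (ha.aestronglyMeasurable.mul hF.aestronglyMeasurable) ?_
  have h1 : ∀ᵐ y ∂(volume.restrict S), y ∈ C := by
    have h2 : ∀ᵐ y ∂(volume.restrict C), y ∈ C := ae_restrict_mem hC.measurableSet
    exact ae_restrict_of_ae_restrict_of_subset hSC h2
  filter_upwards [h1] with y hy
  rw [norm_mul]
  exact mul_le_mul_of_nonneg_right (hB y hy) (norm_nonneg _)

end H33NM
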