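import Pool.Agent.H33.NM.Ma
import Pool.Agent.H33.NM.Mc2

set_option autoImplicit false

/-!
# Row Md: the first variation inequality

C = closedBall c r, B = ball c r, eta = et tau c r, f' = ip gm f g eta, g' = ip gm g f eta (both in Lpo O: lpo_gm).
1. comp_two (row Ma) with C: eta = 0 on O \ C (et_out), 0 <= eta <= 1/2 <= 1: en f C + en g C <= en f' C + en g' C + (e1 + e2).
2. en_ball: the integral over closedBall c r and ball c r agree: setIntegral_congr_set with ball =ᵐ closedBall (Measure.addHaar_sphere; e.g. `MeasureTheory.Measure.addHaar_sphere`, or volume (closedBall \ ball) = 0; ae_eq of sets: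
   `ae_eq_set`, closedBall \ ball = sphere: closedBall_diff_ball). So en f C = ∫_B ed f etc.
3. Integrate two_pw (row Mb2) over B (setIntegral_mono_on_ae or integral_mono_ae on restrict B; all terms integrable: ed_int for f, g, f', g'; mm_int, rad_int, d2_int and cm_int with the continuous factors; zz continuous: unfold, fun_prop):
   ∫_B ed f' + ∫_B ed g' <= ∫_B ed f + ∫_B ed g - 2 tau ∫_B zz (1 - tau zz) mm + tau ∫_B (1 - 2 tau zz) rad + 2 tau² ∫_B ‖y-c‖² d².
4. So 2 tau ∫ zz (1 - tau zz) mm <= tau ∫ (1 - 2 tau zz) rad + 2 tau² ∫ ‖y-c‖² d² + (e1+e2); divide by tau.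
-/

namespace H33NM

open H50NA H98NX MeasureTheory Set Filter Topology Metric

variable {X : Type} [MetricSpace X] {gm : X → X → ℝ → X}

theorem en_ball (f : ℂ → X) (c : ℂ) {r : ℝ} (hr : 0 < r) : en f (closedBall c r) = en f (ball c r) := by
  rw [en_eq, en_eq]
  refine setIntegral_congr_set (ae_eq_set.2 ⟨?_, ?_⟩)
  · rw [closedBall_diff_ball]
    exact Measure.addHaar_sphere volume c r
  · rw [diff_eq_empty.2 ball_subset_closedBall, measure_empty]

theorem m1 (hX : Npc X gm) {f g : ℂ → X} {O : Set ℂ} {e1 e2 : ℝ} (hf : NM f O e1) (hg : NM g O e2)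
    {c : ℂ} {r tau : ℝ} (hr : 0 < r) (hc : closedBall c r ⊆ O) (ht : 0 < tau) (htr : tau * r ^ 2 ≤ 1) :
    2 * ∫ y in ball c r, zz c r y * (1 - tau * zz c r y) * mm f g y ≤
      (∫ y in ball c r, (1 - 2 * (tau * zz c r y)) * rad f g c y)
        + 2 * tau * (∫ y in ball c r, ‖y - c‖ ^ 2 * dd f g y ^ 2) + (e1 + e2) / tau := by
  have hO := hf.opn
  have hK : IsCompact (closedBall c r) := isCompact_closedBall c r
  have hBC : ball c r ⊆ closedBall c r := ball_subset_closedBall
  have h01 : ∀ x ∈ O, 0 ≤ et tau c r x ∧ et tau c r x ≤ 1 := fun x _ =>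
    ⟨et_nonneg ht.le c r x, (et_le ht.le c htr x).trans (by norm_num)⟩
  have he : Lpo (et tau c r) O := et_lpo ht.le c hr O
  have h0 : ∀ x ∈ O \ closedBall c r, et tau c r x = 0 := fun x hx =>
    et_out tau hr fun hb => hx.2 (hBC hb)
  have h1 := comp_two hX hf hg hc hK he h01 h0
  rw [en_ball f c hr, en_ball g c hr, en_ball _ c hr, en_ball _ c hr, en_eq, en_eq, en_eq,
    en_eq] at h1
  have hf' : Lpo (ip gm f g (et tau c r)) O := lpo_gm hX hf.lip hg.lip he h01
  have hg' : Lpo (ip gm g f (et tau c r)) O := lpo_gm hX hg.lip hf.lip he h01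
  have i1 := ed_int hO hf.lip hK hc measurableSet_ball hBC
  have i2 := ed_int hO hg.lip hK hc measurableSet_ball hBC
  have i3 := ed_int hO hf' hK hc measurableSet_ball hBC
  have i4 := ed_int hO hg' hK hc measurableSet_ball hBC
  have hz : Continuous (zz c r) := by
    unfold zz
    fun_prop
  have j1 : IntegrableOn (fun y => zz c r y * (1 - tau * zz c r y) * mm f g y) (ball c r) :=
    cm_int hK hBC (hz.mul (continuous_const.sub (continuous_const.mul hz)))
      (mm_int hO hf.lip hg.lip hK hc measurableSet_ball hBC)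
  have j2 : IntegrableOn (fun y => (1 - 2 * (tau * zz c r y)) * rad f g c y) (ball c r) :=
    cm_int hK hBC (continuous_const.sub (continuous_const.mul (continuous_const.mul hz)))
      (rad_int hO hf.lip hg.lip hK hc measurableSet_ball hBC c)
  have j3 : IntegrableOn (fun y => ‖y - c‖ ^ 2 * dd f g y ^ 2) (ball c r) :=
    cm_int hK hBC (by fun_prop) (d2_int hO hf.lip hg.lip hK hc measurableSet_ball hBC)
  have hmono := integral_mono_ae (μ := volume.restrict (ball c r)) (i3.add i4)
    ((((i1.add i2).sub (j1.const_mul (2 * tau))).add (j2.const_mul tau)).add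
      (j3.const_mul (2 * tau ^ 2))) (by
      filter_upwards [(ae_restrict_iff' measurableSet_ball).2
        (two_pw hX hO hf.lip hg.lip hr hc ht htr)] with y hy
      simp only [Pi.add_apply, Pi.sub_apply]
      refine hy.trans (le_of_eq ?_)
      ring)
  rw [integral_add' i3 i4, integral_add' (((i1.add i2).sub (j1.const_mul (2 * tau))).add
    (j2.const_mul tau)) (j3.const_mul (2 * tau ^ 2)), integral_add' ((i1.add i2).sub
    (j1.const_mul (2 * tau))) (j2.const_mul tau), integral_sub' (i1.add i2)
    (j1.const_mul (2 * tau)), integral_add' i1 i2, integral_const_mul, integral_const_mul,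
    integral_const_mul] at hmono
  have h5 : tau * ((e1 + e2) / tau) = e1 + e2 := by
    field_simp
  refine le_of_mul_le_mul_left ?_ ht
  rw [mul_add, h5]
  nlinarith [h1, hmono]

end H33NM
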