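import Pool.Agent.H33.NM.Md

set_option autoImplicit false

/-!
# Row Me: the lower bound for the integral of `rad`

B = ball c r, C = closedBall c r.
1. rad_L1: ∫_B |rad| <= r (∫_B d² + 2 (en f B + en g B)): rad_abs (row Mc1), ‖y-c‖ <= r on B, integral_mono_ae, linearity.
2. rad_ge. By m1 (row Md) and 0 <= zz (1 - tau zz) mm on B (zz_nonneg, tau zz <= tau r²/2 <= 1/2 (zz_le), mm_nonneg; setIntegral_nonneg): 0 <= ∫(1 - 2 tau zz) rad + 2 tau ∫‖y-c‖² d² + (e1+e2)/tau.
   ∫ (1 - 2 tau zz) rad = ∫ rad - 2 tau ∫ zz rad (integrability: rad_int, cm_int), -∫ zz rad <= (r²/2) ∫ |rad|, ∫‖y-c‖² d² <= r² ∫ d². So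
   ∫ rad >= 2 tau ∫ zz rad - 2 tau r² ∫ d² - (e1+e2)/tau >= - tau r² ∫|rad| - 2 tau r² ∫ d² - (e1+e2)/tau, and then 1.:
   ∫ rad >= - tau (r³ (D + 2 (en f B + en g B)) + 2 r² D) - (e1+e2)/tau with D = ∫_B d².
3. rad_mm (exact minimisers): m1 with e1 = e2 = 0 for all small tau: 2∫zz mm - 2 tau ∫ zz² mm <= ∫ rad - 2 tau ∫ zz rad + 2 tau ∫ ‖y-c‖² d², i.e. 2∫ zz mm <= ∫ rad + tau K for 0 < tau <= 1/r², K a constant;
   le_of_forall_pos_le_add or a limit. (LM = NM with ep = 0: nm_of_lm.)
-/

namespace H33NM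

open H50NA H98NX MeasureTheory Set Filter Topology Metric

variable {X : Type} [MetricSpace X] {gm : X → X → ℝ → X}

theorem Me_zz_cont (c : ℂ) (r : ℝ) : Continuous (zz c r) := by
  unfold zz
  fun_prop

theorem rad_L1 {f g : ℂ → X} {O : Set ℂ} (hO : IsOpen O) (hf : Lpo f O) (hg : Lpo g O) {c : ℂ} {r : ℝ} (hr : 0 < r)
    (hc : closedBall c r ⊆ O) :
    ∫ y in ball c r, |rad f g c y| ≤
      r * ((∫ y in ball c r, dd f g y ^ 2) + 2 * (en f (ball c r) + en g (ball c r))) := by
  have hC := isCompact_closedBall c r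
  have hrad := rad_int hO hf hg hC hc measurableSet_ball ball_subset_closedBall c
  have h2 := d2_int hO hf hg hC hc measurableSet_ball ball_subset_closedBall
  have hef := ed_int hO hf hC hc measurableSet_ball ball_subset_closedBall
  have heg := ed_int hO hg hC hc measurableSet_ball ball_subset_closedBall
  have hR : IntegrableOn (fun y => r * (dd f g y ^ 2 + 2 * (ed f y + ed g y))) (ball c r) :=
    (h2.add ((hef.add heg).const_mul 2)).const_mul r
  have h1 : ∫ y in ball c r, |rad f g c y| ≤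
      ∫ y in ball c r, r * (dd f g y ^ 2 + 2 * (ed f y + ed g y)) := by
    refine setIntegral_mono_on_ae hrad.abs hR measurableSet_ball ?_
    filter_upwards [rad_abs hO hf hg c] with y hy hyB
    refine (hy (hc (ball_subset_closedBall hyB))).trans ?_
    have h3 : ‖y - c‖ ≤ r := by
      rw [← dist_eq_norm]
      exact (mem_ball.mp hyB).le
    have h4 : 0 ≤ dd f g y ^ 2 + 2 * (ed f y + ed g y) := by
      have := ed_nonneg f y
      have := ed_nonneg g y
      positivity
    exact mul_le_mul_of_nonneg_right h3 h4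
  refine h1.trans (le_of_eq ?_)
  have h3 : IntegrableOn (fun y => 2 * (ed f y + ed g y)) (ball c r) := (hef.add heg).const_mul 2
  rw [integral_const_mul, integral_add h2 h3, integral_const_mul, integral_add hef heg, en_eq, en_eq]

theorem rad_ge (hX : Npc X gm) {f g : ℂ → X} {O : Set ℂ} {e1 e2 : ℝ} (hf : NM f O e1) (hg : NM g O e2)
    {c : ℂ} {r tau : ℝ} (hr : 0 < r) (hc : closedBall c r ⊆ O) (ht : 0 < tau) (htr : tau * r ^ 2 ≤ 1) :
    -(tau * (r ^ 3 * ((∫ y in ball c r, dd f g y ^ 2) + 2 * (en f (ball c r) + en g (ball c r)))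
        + 2 * r ^ 2 * ∫ y in ball c r, dd f g y ^ 2) + (e1 + e2) / tau) ≤ ∫ y in ball c r, rad f g c y := by
  have hO := hf.opn
  have hC := isCompact_closedBall c r
  have hrad := rad_int hO hf.lip hg.lip hC hc measurableSet_ball ball_subset_closedBall c
  have h2 := d2_int hO hf.lip hg.lip hC hc measurableSet_ball ball_subset_closedBall
  have hm := m1 hX hf hg hr hc ht htr
  have hz := Me_zz_cont c r
  have k1 : 0 ≤ ∫ y in ball c r, zz c r y * (1 - tau * zz c r y) * mm f g y := by
    refine setIntegral_nonneg measurableSet_ball fun y hy => ?_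
    have a1 := zz_nonneg hy
    have a2 := zz_le c r y
    have a3 : tau * zz c r y ≤ tau * (r ^ 2 / 2) := mul_le_mul_of_nonneg_left a2 ht.le
    have a4 : 0 ≤ 1 - tau * zz c r y := by nlinarith
    exact mul_nonneg (mul_nonneg a1 a4) (mm_nonneg f g y)
  have k2 : ∫ y in ball c r, (1 - 2 * (tau * zz c r y)) * rad f g c y ≤
      (∫ y in ball c r, rad f g c y) + tau * r ^ 2 * ∫ y in ball c r, |rad f g c y| := by
    rw [← integral_const_mul, ← integral_add hrad (hrad.abs.const_mul _)]
    refine setIntegral_mono_on (cm_int hC ball_subset_closedBall (by fun_prop) hrad)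
      (hrad.add (hrad.abs.const_mul _)) measurableSet_ball fun y hy => ?_
    have a1 := zz_nonneg hy
    have a2 := zz_le c r y
    have a3 : tau * zz c r y ≤ tau * (r ^ 2 / 2) := mul_le_mul_of_nonneg_left a2 ht.le
    have a4 : 0 ≤ tau * zz c r y := mul_nonneg ht.le a1
    have a5 := neg_abs_le (rad f g c y)
    have a6 := abs_nonneg (rad f g c y)
    have a7 : tau * zz c r y * -(rad f g c y) ≤ tau * (r ^ 2 / 2) * |rad f g c y| := by
      calc tau * zz c r y * -(rad f g c y) ≤ tau * zz c r y * |rad f g c y| :=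
            mul_le_mul_of_nonneg_left (by linarith) a4
        _ ≤ _ := mul_le_mul_of_nonneg_right a3 a6
    change (1 - 2 * (tau * zz c r y)) * rad f g c y ≤ rad f g c y + tau * r ^ 2 * |rad f g c y|
    nlinarith
  have k3 : ∫ y in ball c r, ‖y - c‖ ^ 2 * dd f g y ^ 2 ≤ r ^ 2 * ∫ y in ball c r, dd f g y ^ 2 := by
    rw [← integral_const_mul]
    refine setIntegral_mono_on (cm_int hC ball_subset_closedBall (by fun_prop) h2)
      (h2.const_mul _) measurableSet_ball fun y hy => ?_
    have a3 : ‖y - c‖ ≤ r := by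
      rw [← dist_eq_norm]
      exact (mem_ball.mp hy).le
    have a4 : ‖y - c‖ ^ 2 ≤ r ^ 2 := pow_le_pow_left₀ (norm_nonneg _) a3 2
    exact mul_le_mul_of_nonneg_right a4 (sq_nonneg _)
  have k4 := rad_L1 hO hf.lip hg.lip hr hc
  have k5 := mul_le_mul_of_nonneg_left k4 (by positivity : 0 ≤ tau * r ^ 2)
  have k6 := mul_le_mul_of_nonneg_left k3 (by positivity : 0 ≤ 2 * tau)
  nlinarith

theorem rad_mm (hX : Npc X gm) {f g : ℂ → X} {O : Set ℂ} (hf : LM f O) (hg : LM g O)
    {c : ℂ} {r : ℝ} (hr : 0 < r) (hc : closedBall c r ⊆ O) :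
    2 * ∫ y in ball c r, zz c r y * mm f g y ≤ ∫ y in ball c r, rad f g c y := by
  have hO := hf.opn
  have hC := isCompact_closedBall c r
  have hrad := rad_int hO hf.lip hg.lip hC hc measurableSet_ball ball_subset_closedBall c
  have hmm := mm_int hO hf.lip hg.lip hC hc measurableSet_ball ball_subset_closedBall
  have hz := Me_zz_cont c r
  have i1 : IntegrableOn (fun y => zz c r y * mm f g y) (ball c r) :=
    cm_int hC ball_subset_closedBall hz hmm
  have i2 : IntegrableOn (fun y => zz c r y ^ 2 * mm f g y) (ball c r) :=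
    cm_int hC ball_subset_closedBall (by fun_prop) hmm
  have i3 : IntegrableOn (fun y => zz c r y * rad f g c y) (ball c r) :=
    cm_int hC ball_subset_closedBall hz hrad
  obtain ⟨K, hK⟩ : ∃ K : ℝ, ∀ tau : ℝ, 0 < tau → tau * r ^ 2 ≤ 1 →
      2 * ∫ y in ball c r, zz c r y * mm f g y ≤ (∫ y in ball c r, rad f g c y) + tau * K := by
    refine ⟨2 * (∫ y in ball c r, zz c r y ^ 2 * mm f g y) -
      2 * (∫ y in ball c r, zz c r y * rad f g c y) +
      2 * (∫ y in ball c r, ‖y - c‖ ^ 2 * dd f g y ^ 2), fun tau ht htr => ?_⟩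
    have hm := m1 hX (nm_of_lm hf) (nm_of_lm hg) hr hc ht htr
    rw [add_zero, zero_div, add_zero] at hm
    have e1 : ∫ y in ball c r, zz c r y * (1 - tau * zz c r y) * mm f g y =
        (∫ y in ball c r, zz c r y * mm f g y) - tau * ∫ y in ball c r, zz c r y ^ 2 * mm f g y := by
      rw [← integral_const_mul, ← integral_sub i1 (i2.const_mul tau)]
      refine integral_congr_ae (Eventually.of_forall fun y => ?_)
      ring
    have e2 : ∫ y in ball c r, (1 - 2 * (tau * zz c r y)) * rad f g c y =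
        (∫ y in ball c r, rad f g c y) - (2 * tau) * ∫ y in ball c r, zz c r y * rad f g c y := by
      rw [← integral_const_mul, ← integral_sub hrad (i3.const_mul (2 * tau))]
      refine integral_congr_ae (Eventually.of_forall fun y => ?_)
      ring
    rw [e1, e2] at hm
    linarith
  refine le_of_forall_pos_le_add fun ε hε => ?_
  have hK1 : 0 < |K| + 1 := by positivity
  obtain ⟨tau, ht, h1, h2⟩ : ∃ tau : ℝ, 0 < tau ∧ tau * r ^ 2 ≤ 1 ∧ tau * K ≤ ε := by
    refine ⟨min (1 / r ^ 2) (ε / (|K| + 1)), by positivity, ?_, ?_⟩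
    · calc min (1 / r ^ 2) (ε / (|K| + 1)) * r ^ 2 ≤ 1 / r ^ 2 * r ^ 2 := by
            gcongr
            exact min_le_left _ _
        _ = 1 := by field_simp
    · calc min (1 / r ^ 2) (ε / (|K| + 1)) * K ≤ min (1 / r ^ 2) (ε / (|K| + 1)) * (|K| + 1) := by
            have := le_abs_self K
            gcongr
            linarith
        _ ≤ ε / (|K| + 1) * (|K| + 1) := by
            gcongr
            exact min_le_right _ _
        _ = ε := by field_simp
  exact (hK tau ht h1).trans (by linarith)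

end H33NM
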