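import Pool.Agent.H33.NM.Df

set_option autoImplicit false

/-!
# Row Mf1: scaling of balls

1. ball_scale: change of variables y = c + s ξ. With indicators: ∫_{ball c s} H = ∫ (ball c s).indicator H (integral_indicator); translate (integral_add_left_eq_self / `integral_comp_...`), then
   Measure.integral_comp_smul: ∫ G (s • ξ) = |(s ^ finrank ℝ ℂ)⁻¹| • ∫ G, finrank ℝ ℂ = 2 (Complex.finrank_real_complex). c + s ξ ∈ ball c s iff ξ ∈ ball 0 1. (smul: (s : ℂ) * ξ = s • ξ: Complex.real_smul.)
2. ball_avg: volume (ball c s) = π s² (Complex.volume_ball), setAverage_eq, measureReal; from 1.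
-/

namespace H33NM

open H50NA H98NX MeasureTheory Set Filter Topology Metric

theorem ball_scale (H : ℂ → ℝ) (c : ℂ) {s : ℝ} (hs : 0 < s) :
    ∫ y in ball c s, H y = s ^ 2 * ∫ x in ball (0 : ℂ) 1, H (c + (s : ℂ) * x) := by
  have h1 : ∫ x in ball (0 : ℂ) 1, H (c + (s : ℂ) * x) =
      ∫ x, (ball c s).indicator H (c + s • x) := by
    rw [← integral_indicator measurableSet_ball]
    refine integral_congr_ae (Eventually.of_forall fun x => ?_)
    have e : (s : ℂ) * x = s • x := (Complex.real_smul).symm
    by_cases hx : x ∈ ball (0 : ℂ) 1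
    · have h2 : c + s • x ∈ ball c s := by
        rw [mem_ball, dist_eq_norm, add_sub_cancel_left, norm_smul, Real.norm_eq_abs, abs_of_pos hs]
        rw [mem_ball_zero_iff] at hx
        nlinarith
      simp only [indicator_of_mem hx, indicator_of_mem h2, e]
    · have h2 : c + s • x ∉ ball c s := by
        rw [mem_ball, dist_eq_norm, add_sub_cancel_left, norm_smul, Real.norm_eq_abs, abs_of_pos hs]
        rw [mem_ball_zero_iff, not_lt] at hx
        rw [not_lt]
        nlinarith
      simp only [indicator_of_notMem hx, indicator_of_notMem h2]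
  have h2 : ∫ x, (ball c s).indicator H (c + s • x) = |(s ^ 2)⁻¹| • ∫ x, (ball c s).indicator H (c + x) := by
    have := Measure.integral_comp_smul (volume : Measure ℂ) (fun x => (ball c s).indicator H (c + x)) s
    rwa [Complex.finrank_real_complex] at this
  have h3 : ∫ x, (ball c s).indicator H (c + x) = ∫ y in ball c s, H y := by
    rw [integral_add_left_eq_self (fun x => (ball c s).indicator H x) c, integral_indicator measurableSet_ball]
  rw [h1, h2, h3, abs_of_pos (by positivity), smul_eq_mul, ← mul_assoc, mul_inv_cancel₀ (by positivity), one_mul]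

theorem avg_int (H : ℂ → ℝ) (c : ℂ) {s : ℝ} (hs : 0 < s) :
    ⨍ y in ball c s, H y = (Real.pi * s ^ 2)⁻¹ * ∫ y in ball c s, H y := by
  have hv : (volume : Measure ℂ).real (ball c s) = Real.pi * s ^ 2 := by
    rw [Measure.real, Complex.volume_ball, ENNReal.toReal_mul, ENNReal.toReal_pow, ENNReal.toReal_ofReal hs.le]
    simp [mul_comm]
  rw [setAverage_eq, hv, smul_eq_mul]

theorem ball_avg (H : ℂ → ℝ) (c : ℂ) {s : ℝ} (hs : 0 < s) :
    ⨍ y in ball c s, H y = Real.pi⁻¹ * ∫ x in ball (0 : ℂ) 1, H (c + (s : ℂ) * x) := by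
  rw [avg_int H c hs, ball_scale H c hs]
  have : s ≠ 0 := hs.ne'
  field_simp

end H33NM
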