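import Pool.Agent.H33.NM.Mfr

set_option autoImplicit false

/-!
# Row Mf2: the derivative of ball averages

Let Phi (x, s) := fderiv ℝ F (c + s x) x on ball 0 1 × Icc r R.
1. Bound: F is Lipschitz with constant L on closedBall c R' for some R' > R with closedBall c R' ⊆ O (lpo_nbhd from H98.NX.Ee for the compact closedBall c R, or IsCompact.exists_cthickening_subset_open), so ‖fderiv ℝ F y‖ <= L for
   y ∈ closedBall c R (norm_fderiv_le_of_lip' / norm_fderiv_le_of_lipschitzOn with a neighbourhood), and |Phi| <= L for ‖x‖ <= 1.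
2. Measurability: fderiv ℝ F (c + s x) x = x.re * fderiv ℝ F (c + s x) 1 + x.im * fderiv ℝ F (c + s x) I, and y ↦ fderiv ℝ F y v is measurable for fixed v (measurable_fderiv_apply_const ℝ F v), composed with the continuous map (x,s) ↦ c + s x. So Phi is measurable on ℂ × ℝ.
3. So Phi is integrable on (volume.restrict (ball 0 1)).prod (volume.restrict (Ioc r R)) (finite measure, bounded a.e.: Measure.prod_restrict and ae_restrict).
4. ball_avg (row Mf1) for R and r, integral_sub (x ↦ F (c + R x) is continuous on the closed unit ball so integrable on the ball):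
   ⨍_R F - ⨍_r F = π⁻¹ ∫_{ball 0 1} (F (c + R x) - F (c + r x)) dx = π⁻¹ ∫_{ball 0 1} ∫_r^R Phi (x,s) ds dx (ftc_ray, row Mfr) = π⁻¹ ∫_r^R ∫_{ball 0 1} Phi (x,s) dx ds (integral_integral_swap; interval integral = set integral on Ioc).
5. For s ∈ Ioc r R (s > 0), ball_scale with H y = fderiv ℝ F y (y - c): H (c + s x) = fderiv ℝ F (c + s x) (s x) = s Phi (x,s), so ∫_{ball c s} fderiv ℝ F y (y - c) dy = s³ ∫_{ball 0 1} Phi (x,s) dx.
   So the integrand is π⁻¹ (s³)⁻¹ ∫_{ball c s} fderiv ℝ F y (y-c).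
6. Integrability of s ↦ ∫ Phi (x,s) dx on Ioc r R: Integrable.integral_prod_right (or its swap).
-/

namespace H33NM

open H50NA H98NX MeasureTheory Set Filter Topology Metric

theorem Mf2_meas (F : ℂ → ℝ) (c : ℂ) :
    Measurable (fun p : ℂ × ℝ => fderiv ℝ F (c + (p.2 : ℂ) * p.1) p.1) := by
  have h0 : Measurable (fun p : ℂ × ℝ => c + (p.2 : ℂ) * p.1) := by fun_prop
  have h1 : Measurable (fun p : ℂ × ℝ => fderiv ℝ F (c + (p.2 : ℂ) * p.1) 1) :=
    (measurable_fderiv_apply_const ℝ F (1 : ℂ)).comp h0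
  have h2 : Measurable (fun p : ℂ × ℝ => fderiv ℝ F (c + (p.2 : ℂ) * p.1) Complex.I) :=
    (measurable_fderiv_apply_const ℝ F Complex.I).comp h0
  have e : (fun p : ℂ × ℝ => fderiv ℝ F (c + (p.2 : ℂ) * p.1) p.1) = fun p : ℂ × ℝ =>
      p.1.re * fderiv ℝ F (c + (p.2 : ℂ) * p.1) 1 +
        p.1.im * fderiv ℝ F (c + (p.2 : ℂ) * p.1) Complex.I := by
    funext p
    have h3 : p.1 = p.1.re • (1 : ℂ) + p.1.im • Complex.I := by
      rw [Complex.real_smul, Complex.real_smul, mul_one]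
      exact (Complex.re_add_im p.1).symm
    conv_lhs => rw [h3]
    rw [map_add, map_smul, map_smul, smul_eq_mul, smul_eq_mul, ← h3]
  rw [e]
  have h4 : Measurable (fun p : ℂ × ℝ => p.1.re) := Complex.measurable_re.comp measurable_fst
  have h5 : Measurable (fun p : ℂ × ℝ => p.1.im) := Complex.measurable_im.comp measurable_fst
  exact (h4.mul h1).add (h5.mul h2)

theorem Mf2_mem {c x : ℂ} {s R : ℝ} (hs : 0 ≤ s) (hsR : s ≤ R) (hx : x ∈ closedBall (0 : ℂ) 1) :
    c + (s : ℂ) * x ∈ closedBall c R := by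
  rw [mem_closedBall, dist_eq_norm, add_sub_cancel_left, norm_mul, Complex.norm_real,
    Real.norm_eq_abs, abs_of_nonneg hs]
  rw [mem_closedBall_zero_iff] at hx
  nlinarith [norm_nonneg x]

theorem Mf2_bound {F : ℂ → ℝ} {O : Set ℂ} (hO : IsOpen O) (hF : Lpo F O) {c : ℂ} {R : ℝ}
    (hc : closedBall c R ⊆ O) : ∃ L : ℝ, 0 ≤ L ∧ ∀ y ∈ closedBall c R, ‖fderiv ℝ F y‖ ≤ L := by
  obtain ⟨d, hd, L, hL, -, -, hlip, -⟩ := lpo_nbhd hO hF (isCompact_closedBall c R) hc
  refine ⟨L, hL, fun y hy => ?_⟩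
  apply norm_fderiv_le_of_lip' ℝ hL
  filter_upwards [ball_mem_nhds y hd] with z hz
  have h1 := hlip z (mem_cthickening_of_dist_le z y d _ hy (mem_ball.1 hz).le) y
    (self_subset_cthickening _ hy)
  rwa [dist_eq_norm, dist_eq_norm] at h1

theorem Mf2_int {F : ℂ → ℝ} {O : Set ℂ} (hO : IsOpen O) (hF : Lpo F O) {c : ℂ} {r R : ℝ} (hr : 0 < r)
    (hc : closedBall c R ⊆ O) :
    Integrable (fun p : ℂ × ℝ => fderiv ℝ F (c + (p.2 : ℂ) * p.1) p.1)
      ((volume.restrict (ball (0 : ℂ) 1)).prod (volume.restrict (Ioc r R))) := by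
  obtain ⟨L, hL, hb⟩ := Mf2_bound hO hF hc
  have hfin : IsFiniteMeasure ((volume : Measure ℂ).restrict (ball (0 : ℂ) 1)) := ⟨by
    rw [Measure.restrict_apply_univ]
    exact measure_ball_lt_top⟩
  have hfin2 : IsFiniteMeasure ((volume : Measure ℝ).restrict (Ioc r R)) := ⟨by
    rw [Measure.restrict_apply_univ]
    exact measure_Ioc_lt_top⟩
  refine Integrable.of_bound (Mf2_meas F c).aestronglyMeasurable L ?_
  rw [Measure.prod_restrict]
  filter_upwards [ae_restrict_mem (measurableSet_ball.prod measurableSet_Ioc)] with p hp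
  obtain ⟨hp1, hp2⟩ := hp
  have h1 := hb _ (Mf2_mem (c := c) (hr.le.trans hp2.1.le) hp2.2 (ball_subset_closedBall hp1))
  have h2 : ‖p.1‖ ≤ 1 := (mem_ball_zero_iff.1 hp1).le
  refine ((fderiv ℝ F (c + (p.2 : ℂ) * p.1)).le_opNorm p.1).trans ?_
  calc ‖fderiv ℝ F (c + (p.2 : ℂ) * p.1)‖ * ‖p.1‖ ≤ L * 1 := mul_le_mul h1 h2 (norm_nonneg _) hL
    _ = L := mul_one L

theorem Mf2_cont {F : ℂ → ℝ} {O : Set ℂ} (hO : IsOpen O) (hF : Lpo F O) {c : ℂ} {s R : ℝ} (hs : 0 ≤ s)
    (hsR : s ≤ R) (hc : closedBall c R ⊆ O) :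
    IntegrableOn (fun x : ℂ => F (c + (s : ℂ) * x)) (ball (0 : ℂ) 1) := by
  have h1 : ContinuousOn (fun x : ℂ => F (c + (s : ℂ) * x)) (closedBall (0 : ℂ) 1) :=
    (lpo_cont hO hF).comp (by fun_prop) fun x hx => hc (Mf2_mem hs hsR hx)
  exact (h1.integrableOn_compact (isCompact_closedBall (0 : ℂ) 1)).mono_set ball_subset_closedBall

theorem avg_diff {F : ℂ → ℝ} {O : Set ℂ} (hO : IsOpen O) (hF : Lpo F O) {c : ℂ} {r R : ℝ} (hr : 0 < r) (hR : r ≤ R)
    (hc : closedBall c R ⊆ O) :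
    IntervalIntegrable (fun s : ℝ => (Real.pi * s ^ 3)⁻¹ * ∫ y in ball c s, fderiv ℝ F y (y - c)) volume r R ∧
      (⨍ y in ball c R, F y) - (⨍ y in ball c r, F y) =
        ∫ s in r..R, (Real.pi * s ^ 3)⁻¹ * ∫ y in ball c s, fderiv ℝ F y (y - c) := by
  have hint := Mf2_int hO hF hr hc
  have hR0 : 0 < R := hr.trans_le hR
  have key : ∀ s ∈ Ioc r R, (Real.pi * s ^ 3)⁻¹ * ∫ y in ball c s, fderiv ℝ F y (y - c) =
      Real.pi⁻¹ * ∫ x in ball (0 : ℂ) 1, fderiv ℝ F (c + (s : ℂ) * x) x := by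
    intro s hs
    have hs0 : 0 < s := hr.trans hs.1
    rw [ball_scale (fun y => fderiv ℝ F y (y - c)) c hs0]
    have e : ∀ x : ℂ, fderiv ℝ F (c + (s : ℂ) * x) (c + (s : ℂ) * x - c) =
        s * fderiv ℝ F (c + (s : ℂ) * x) x := by
      intro x
      rw [add_sub_cancel_left, ← Complex.real_smul, map_smul, smul_eq_mul]
    simp only [e]
    rw [integral_const_mul]
    have hpi : Real.pi ≠ 0 := Real.pi_ne_zero
    field_simp
  have hPsi : IntegrableOn (fun s : ℝ => Real.pi⁻¹ *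
      ∫ x in ball (0 : ℂ) 1, fderiv ℝ F (c + (s : ℂ) * x) x) (Ioc r R) :=
    (hint.integral_prod_right).const_mul _
  refine ⟨?_, ?_⟩
  · rw [intervalIntegrable_iff_integrableOn_Ioc_of_le hR]
    exact hPsi.congr_fun (fun s hs => (key s hs).symm) measurableSet_Ioc
  · rw [ball_avg F c hR0, ball_avg F c hr, ← mul_sub,
      ← integral_sub (Mf2_cont hO hF hR0.le le_rfl hc) (Mf2_cont hO hF hr.le hR hc)]
    have e1 : ∫ x in ball (0 : ℂ) 1, (F (c + (R : ℂ) * x) - F (c + (r : ℂ) * x)) =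
        ∫ x in ball (0 : ℂ) 1, ∫ s in Ioc r R, fderiv ℝ F (c + (s : ℂ) * x) x := by
      apply integral_congr_ae
      rw [EventuallyEq, ae_restrict_iff' measurableSet_ball]
      filter_upwards [ftc_ray hO hF hr hR hc] with x hx hxb
      rw [hx hxb, intervalIntegral.integral_of_le hR]
    rw [e1, integral_integral_swap (f := fun (x : ℂ) (s : ℝ) => fderiv ℝ F (c + (s : ℂ) * x) x) hint,
      intervalIntegral.integral_of_le hR, ← integral_const_mul]
    exact (setIntegral_congr_fun measurableSet_Ioc fun s hs => key s hs).symm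

end H33NM
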