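import Pool.Agent.H33.NM.Mf1

set_option autoImplicit false

/-!
# Row Mfr: fundamental theorem of calculus on rays

1. diff_ray: N := {y : ¬ DifferentiableAt ℝ F y} ∩ O is null (lpo_diff from H98.NX.Ea with volume). M := {(ξ,s) : s ∈ Icc r R, c + s ξ ∈ closedBall c R (i.e. ξ in closed unit ball is enough), F not differentiable at c + s ξ}.
   Show ∀ᵐ ξ, ξ ∈ ball 0 1 → ∀ᵐ s, s ∈ Icc r R → DifferentiableAt ℝ F (c + s ξ). Fubini: Measure.ae_ae_of_ae_prod / or `MeasureTheory.Measure.ae_prod_mem_iff..`: with the measurable set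
   G := {p : ℂ × ℝ | p.1 ∈ ball 0 1 → p.2 ∈ Icc r R → DifferentiableAt ℝ F (c + p.2 • p.1)} (measurableSet_of_differentiableAt ℝ F : MeasurableSet {x | DifferentiableAt ℝ F x}, preimage under a continuous map).
   For each s ∈ Icc r R (s > 0): for a.e. ξ: ξ ∈ ball 0 1 → differentiable at c + s ξ: the map ξ ↦ c + s ξ pulls null sets back to null sets (s ≠ 0; e.g. Measure.addHaar_preimage_smul and translation; or use ball_scale (row Mf1) with H the indicator; or quasi measure preserving).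
   So {p ∉ G} has all s-sections null => product null (Measure.measure_prod_null with the swapped order) => a.e. ξ-section is null.
2. ftc_ray: for such ξ, phi s := F (c + s ξ) is Lipschitz on Icc r R (Lpo F O on the compact set closedBall c R; dist (c + s ξ) (c + s' ξ) <= |s - s'|), so LipschitzOnWith.absolutelyContinuousOnInterval and
   AbsolutelyContinuousOnInterval.integral_deriv_eq_sub give phi R - phi r = ∫_r^R deriv phi; and deriv phi s = fderiv ℝ F (c + s ξ) ξ at points of differentiability (chain rule: HasFDerivAt.comp_hasDerivAt, derivative of s ↦ c + s ξ is ξ).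
   intervalIntegral.integral_congr_ae.
-/

namespace H33NM

open H50NA H98NX MeasureTheory Set Filter Topology Metric

theorem diff_ray {F : ℂ → ℝ} {O : Set ℂ} (hO : IsOpen O) (hF : Lpo F O) {c : ℂ} {r R : ℝ} (hr : 0 < r)
    (hc : closedBall c R ⊆ O) :
    ∀ᵐ x : ℂ, x ∈ ball (0 : ℂ) 1 → ∀ᵐ s : ℝ, s ∈ Icc r R → DifferentiableAt ℝ F (c + (s : ℂ) * x) := by
  have hd : ∀ᵐ y : ℂ, y ∈ O → DifferentiableAt ℝ F y := lpo_diff volume hO hF
  have hball : ∀ (x : ℂ) (s : ℝ), x ∈ ball (0 : ℂ) 1 → s ∈ Icc r R → c + (s : ℂ) * x ∈ O := by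
    intro x s hx hs
    apply hc
    rw [mem_closedBall, dist_eq_norm, add_sub_cancel_left, norm_mul, Complex.norm_real,
      Real.norm_eq_abs, abs_of_nonneg (hr.le.trans hs.1)]
    rw [mem_ball_zero_iff] at hx
    calc s * ‖x‖ ≤ R * 1 := mul_le_mul hs.2 hx.le (norm_nonneg _) (hr.le.trans (hs.1.trans hs.2))
      _ = R := mul_one R
  have hsec : ∀ s : ℝ, s ∈ Icc r R → ∀ᵐ x : ℂ, x ∈ ball (0 : ℂ) 1 →
      DifferentiableAt ℝ F (c + (s : ℂ) * x) := by
    intro s hs
    have hs0 : s ≠ 0 := (hr.trans_le hs.1).ne'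
    have hq : Measure.QuasiMeasurePreserving (fun x : ℂ => c + s • x) volume volume :=
      (measurePreserving_add_left (volume : Measure ℂ) c).quasiMeasurePreserving.comp
        (Measure.quasiMeasurePreserving_smul (volume : Measure ℂ) hs0)
    have h1 := hq.ae hd
    filter_upwards [h1] with x hx hxb
    rw [Complex.real_smul] at hx
    exact hx (hball x s hxb hs)
  have hmeas : MeasurableSet {p : ℂ × ℝ | p.1 ∈ ball (0 : ℂ) 1 → p.2 ∈ Icc r R →
      DifferentiableAt ℝ F (c + (p.2 : ℂ) * p.1)} := by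
    have m1 : MeasurableSet {p : ℂ × ℝ | p.1 ∈ ball (0 : ℂ) 1} :=
      measurable_fst measurableSet_ball
    have m2 : MeasurableSet {p : ℂ × ℝ | p.2 ∈ Icc r R} := measurable_snd measurableSet_Icc
    have m3 : MeasurableSet {p : ℂ × ℝ | DifferentiableAt ℝ F (c + (p.2 : ℂ) * p.1)} := by
      have hcm : Measurable fun p : ℂ × ℝ => c + (p.2 : ℂ) * p.1 :=
        Continuous.measurable (by fun_prop)
      exact hcm (measurableSet_of_differentiableAt ℝ F)
    have e : {p : ℂ × ℝ | p.1 ∈ ball (0 : ℂ) 1 → p.2 ∈ Icc r R →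
        DifferentiableAt ℝ F (c + (p.2 : ℂ) * p.1)} =
        {p : ℂ × ℝ | p.1 ∈ ball (0 : ℂ) 1}ᶜ ∪ ({p : ℂ × ℝ | p.2 ∈ Icc r R}ᶜ ∪
          {p : ℂ × ℝ | DifferentiableAt ℝ F (c + (p.2 : ℂ) * p.1)}) := by
      ext p
      simp only [mem_setOf_eq, mem_union, mem_compl_iff]
      tauto
    rw [e]
    exact m1.compl.union (m2.compl.union m3)
  have h2 := (Measure.ae_ae_comm (μ := (volume : Measure ℂ)) (ν := (volume : Measure ℝ))
    (p := fun x s => x ∈ ball (0 : ℂ) 1 → s ∈ Icc r R → DifferentiableAt ℝ F (c + (s : ℂ) * x))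
    hmeas).2 (by
      refine ae_of_all _ fun s => ?_
      by_cases hs : s ∈ Icc r R
      · filter_upwards [hsec s hs] with x hx hxb _
        exact hx hxb
      · exact ae_of_all _ fun x _ h => absurd h hs)
  filter_upwards [h2] with x hx hxb
  filter_upwards [hx] with s hs
  exact hs hxb

theorem ftc_ray {F : ℂ → ℝ} {O : Set ℂ} (hO : IsOpen O) (hF : Lpo F O) {c : ℂ} {r R : ℝ} (hr : 0 < r) (hR : r ≤ R)
    (hc : closedBall c R ⊆ O) :
    ∀ᵐ x : ℂ, x ∈ ball (0 : ℂ) 1 →
      F (c + (R : ℂ) * x) - F (c + (r : ℂ) * x) = ∫ s in r..R, fderiv ℝ F (c + (s : ℂ) * x) x := by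
  filter_upwards [diff_ray hO hF hr hc] with x hx hxb
  have hx1 := hx hxb
  rw [mem_ball_zero_iff] at hxb
  have hmem : ∀ s ∈ uIcc r R, c + (s : ℂ) * x ∈ closedBall c R := by
    intro s hs
    rw [uIcc_of_le hR] at hs
    rw [mem_closedBall, dist_eq_norm, add_sub_cancel_left, norm_mul, Complex.norm_real,
      Real.norm_eq_abs, abs_of_nonneg (hr.le.trans hs.1)]
    calc s * ‖x‖ ≤ R * 1 := mul_le_mul hs.2 hxb.le (norm_nonneg _) (hr.le.trans hR)
      _ = R := mul_one R
  obtain ⟨L, hL⟩ := hF (closedBall c R) hc (isCompact_closedBall c R)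
  have hlip : LipschitzOnWith (Real.toNNReal L) (fun s : ℝ => F (c + (s : ℂ) * x)) (uIcc r R) := by
    refine LipschitzOnWith.of_dist_le_mul fun s hs t ht => ?_
    have h1 := hL _ (hmem s hs) _ (hmem t ht)
    have h2 : dist (c + (s : ℂ) * x) (c + (t : ℂ) * x) ≤ dist s t := by
      rw [dist_add_left, dist_eq_norm, ← sub_mul, norm_mul, ← Complex.ofReal_sub, Complex.norm_real,
        Real.dist_eq, Real.norm_eq_abs]
      calc |s - t| * ‖x‖ ≤ |s - t| * 1 := mul_le_mul_of_nonneg_left hxb.le (abs_nonneg _)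
        _ = |s - t| := mul_one _
    calc dist (F (c + (s : ℂ) * x)) (F (c + (t : ℂ) * x)) ≤ L * dist (c + (s : ℂ) * x) (c + (t : ℂ) * x) := h1
      _ ≤ (Real.toNNReal L : ℝ) * dist (c + (s : ℂ) * x) (c + (t : ℂ) * x) :=
        mul_le_mul_of_nonneg_right (Real.le_coe_toNNReal L) dist_nonneg
      _ ≤ (Real.toNNReal L : ℝ) * dist s t := mul_le_mul_of_nonneg_left h2 (NNReal.coe_nonneg _)
  have hftc := (hlip.absolutelyContinuousOnInterval).integral_deriv_eq_sub
  rw [← hftc]
  refine intervalIntegral.integral_congr_ae ?_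
  filter_upwards [hx1] with s hs hs2
  rw [uIoc_of_le hR] at hs2
  have hdf := hs ⟨hs2.1.le, hs2.2⟩
  have hline : HasDerivAt (fun s : ℝ => c + (s : ℂ) * x) x s := by
    have h3 := ((hasDerivAt_id s).ofReal_comp.mul_const x).const_add c
    simpa using h3
  exact (hdf.hasFDerivAt.comp_hasDerivAt s hline).deriv

end H33NM
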