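import Pool.Agent.H33.NM.Me
import Pool.Agent.H33.NM.Mf2

set_option autoImplicit false

/-!
# Row Mg: ball averages of the squared distance of two (near-)minimisers

F y := dd f g y ^ 2 is in Lpo O (lpo_dist, lpo_mul). For a.e. y ∈ O dd f g is differentiable at y (lpo_diff), and then fderiv ℝ F y (y-c) = 2 dd f g y * fderiv ℝ (dd f g) y (y-c) = rad f g c y. So ∫_{ball c s} fderiv ℝ F y (y-c) = ∫_{ball c s} rad f g c y.
1. m2n. tau := sqrt e, e > 0, tau R² <= 1, so tau s² <= 1 for s ∈ [r,R]. rad_ge (row Me), with D_s = ∫_{ball c s} d² <= D := ∫_{ball c R} d², E_s = en f (ball c s) + en g (ball c s) <= E := en f (closedBall c R) + en g (closedBall c R) (en_mono, setIntegral_mono_set):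
   ∫_{ball c s} rad >= -(tau (s³ (D + 2 E) + 2 s² D) + (e1+e2)/tau) >= - tau ((R³ + 2 R²) K + 1), K := D + 2 E, as (e1+e2)/tau <= e/tau = tau.
   avg_diff (row Mf2): ⨍_R F - ⨍_r F = ∫_r^R (π s³)⁻¹ ∫_{ball c s} rad >= ∫_r^R -(π r³)⁻¹ sqrt e ((R³+2R²)K+1) ds ((π s³)⁻¹ <= (π r³)⁻¹; intervalIntegral.integral_mono_on).
2. m2_avg: f, g LM (e1 = e2 = 0): m2n for all small e > 0, e -> 0 (the right side converges: continuity of sqrt at 0; or directly rad_mm gives ∫_{ball c s} rad >= 0 since zz, mm >= 0, and integral_nonneg).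
-/

namespace H33NM

open H50NA H98NX MeasureTheory Set Filter Topology Metric

variable {X : Type} [MetricSpace X] {gm : X → X → ℝ → X}

theorem Mg_lpo {f g : ℂ → X} {O : Set ℂ} (hf : Lpo f O) (hg : Lpo g O) :
    Lpo (fun y => dd f g y ^ 2) O := by
  have h := lpo_mul (lpo_dist hf hg) (lpo_dist hf hg)
  have e : (fun y => dd f g y ^ 2) = fun x => dist (f x) (g x) * dist (f x) (g x) := by
    funext y
    unfold dd
    ring
  rw [e]
  exact h

theorem Mg_rad {f g : ℂ → X} {O : Set ℂ} (hO : IsOpen O) (hf : Lpo f O) (hg : Lpo g O) {c : ℂ} {s : ℝ}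
    (hs : ball c s ⊆ O) :
    ∫ y in ball c s, fderiv ℝ (fun y => dd f g y ^ 2) y (y - c) = ∫ y in ball c s, rad f g c y := by
  apply setIntegral_congr_ae measurableSet_ball
  filter_upwards [lpo_diff volume hO (lpo_dist hf hg)] with y hy hyb
  have hd : DifferentiableAt ℝ (dd f g) y := hy (hs hyb)
  have h1 := (hd.hasFDerivAt.pow 2).fderiv
  have h2 : fderiv ℝ (fun y => dd f g y ^ 2) y = (2 * dd f g y) • fderiv ℝ (dd f g) y := by
    rw [h1]
    ext t
    simp
  rw [h2]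
  unfold rad
  simp

theorem m2n (hX : Npc X gm) {f g : ℂ → X} {O : Set ℂ} {e1 e2 e : ℝ} (hf : NM f O e1) (hg : NM g O e2)
    (he : 0 < e) (hee : e1 + e2 ≤ e) {c : ℂ} {r R : ℝ} (hr : 0 < r) (hR : r ≤ R) (hc : closedBall c R ⊆ O)
    (heR : Real.sqrt e * R ^ 2 ≤ 1) :
    (⨍ y in ball c r, dd f g y ^ 2) ≤ (⨍ y in ball c R, dd f g y ^ 2) +
      (R - r) * ((Real.pi * r ^ 3)⁻¹ * (Real.sqrt e * ((R ^ 3 + 2 * R ^ 2) *
        ((∫ y in ball c R, dd f g y ^ 2) + 2 * (en f (closedBall c R) + en g (closedBall c R))) + 1))) := by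
  have hO := hf.opn
  obtain ⟨hI, hE⟩ := avg_diff hO (Mg_lpo hf.lip hg.lip) hr hR hc
  have hR0 : 0 < R := hr.trans_le hR
  have ht : 0 < Real.sqrt e := Real.sqrt_pos.2 he
  obtain ⟨tau, htau⟩ : ∃ tau : ℝ, tau = Real.sqrt e := ⟨_, rfl⟩
  rw [← htau] at ht heR ⊢
  obtain ⟨D, hD⟩ : ∃ D : ℝ, D = ∫ y in ball c R, dd f g y ^ 2 := ⟨_, rfl⟩
  obtain ⟨E, hEE⟩ : ∃ E : ℝ, E = en f (closedBall c R) + en g (closedBall c R) := ⟨_, rfl⟩
  rw [← hD, ← hEE]
  have hD0 : 0 ≤ D := by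
    rw [hD]
    exact setIntegral_nonneg measurableSet_ball (fun y _ => sq_nonneg _)
  have hE0 : 0 ≤ E := by
    rw [hEE]
    exact add_nonneg (en_nonneg _ _) (en_nonneg _ _)
  obtain ⟨M, hM⟩ : ∃ M : ℝ, M = tau * ((R ^ 3 + 2 * R ^ 2) * (D + 2 * E) + 1) := ⟨_, rfl⟩
  rw [← hM]
  have hM0 : 0 ≤ M := by
    rw [hM]
    positivity
  have key : ∫ s in r..R, -((Real.pi * r ^ 3)⁻¹ * M) ≤
      ∫ s in r..R, (Real.pi * s ^ 3)⁻¹ * ∫ y in ball c s, fderiv ℝ (fun y => dd f g y ^ 2) y (y - c) := by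
    refine intervalIntegral.integral_mono_on hR intervalIntegrable_const hI ?_
    intro s hs
    have hs0 : 0 < s := hr.trans_le hs.1
    have hcs : closedBall c s ⊆ O := (closedBall_subset_closedBall hs.2).trans hc
    rw [Mg_rad hO hf.lip hg.lip (ball_subset_closedBall.trans hcs)]
    have hss : s ^ 2 ≤ R ^ 2 := pow_le_pow_left₀ hs0.le hs.2 2
    have hsss : s ^ 3 ≤ R ^ 3 := pow_le_pow_left₀ hs0.le hs.2 3
    have h1 := rad_ge hX hf hg hs0 hcs ht ((mul_le_mul_of_nonneg_left hss ht.le).trans heR)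
    obtain ⟨Ds, hDs⟩ : ∃ D : ℝ, D = ∫ y in ball c s, dd f g y ^ 2 := ⟨_, rfl⟩
    obtain ⟨Es, hEs⟩ : ∃ E : ℝ, E = en f (ball c s) + en g (ball c s) := ⟨_, rfl⟩
    rw [← hDs, ← hEs] at h1
    have hDs0 : 0 ≤ Ds := by
      rw [hDs]
      exact setIntegral_nonneg measurableSet_ball (fun y _ => sq_nonneg _)
    have hEs0 : 0 ≤ Es := by
      rw [hEs]
      exact add_nonneg (en_nonneg _ _) (en_nonneg _ _)
    have hDD : Ds ≤ D := by
      rw [hDs, hD]
      refine setIntegral_mono_set (d2_int hO hf.lip hg.lip (isCompact_closedBall c R) hc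
        measurableSet_ball ball_subset_closedBall) ?_ ?_
      · exact Filter.Eventually.of_forall (fun y => sq_nonneg _)
      · exact (ball_subset_ball hs.2).eventuallyLE
    have hEs1 : Es ≤ E := by
      rw [hEs, hEE]
      have hsub : ball c s ⊆ closedBall c R := (ball_subset_ball hs.2).trans ball_subset_closedBall
      exact add_le_add (en_mono hO hf.lip (isCompact_closedBall c R) hc hsub)
        (en_mono hO hg.lip (isCompact_closedBall c R) hc hsub)
    have hdiv : (e1 + e2) / tau ≤ tau := by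
      rw [div_le_iff₀ ht]
      have : tau * tau = e := by
        rw [htau]
        exact Real.mul_self_sqrt he.le
      linarith
    have h2 : s ^ 3 * (Ds + 2 * Es) + 2 * s ^ 2 * Ds ≤ (R ^ 3 + 2 * R ^ 2) * (D + 2 * E) := by
      have a1 : s ^ 3 * (Ds + 2 * Es) ≤ R ^ 3 * (D + 2 * E) :=
        mul_le_mul hsss (by linarith) (by linarith) (by positivity)
      have a2 : 2 * s ^ 2 * Ds ≤ 2 * R ^ 2 * (D + 2 * E) :=
        mul_le_mul (by linarith) (by linarith) hDs0 (by positivity)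
      linarith
    have h3 : -M ≤ ∫ y in ball c s, rad f g c y := by
      refine le_trans ?_ h1
      rw [hM]
      have := mul_le_mul_of_nonneg_left h2 ht.le
      linarith
    have hpi := Real.pi_pos
    have h4 : (Real.pi * s ^ 3)⁻¹ ≤ (Real.pi * r ^ 3)⁻¹ := by
      apply inv_anti₀ (by positivity)
      exact mul_le_mul_of_nonneg_left (pow_le_pow_left₀ hr.le hs.1 3) hpi.le
    have h5 : (Real.pi * s ^ 3)⁻¹ * (-M) ≤ (Real.pi * s ^ 3)⁻¹ * ∫ y in ball c s, rad f g c y :=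
      mul_le_mul_of_nonneg_left h3 (by positivity)
    have h6 : (Real.pi * s ^ 3)⁻¹ * M ≤ (Real.pi * r ^ 3)⁻¹ * M := mul_le_mul_of_nonneg_right h4 hM0
    linarith
  rw [← hE, intervalIntegral.integral_const, smul_eq_mul] at key
  linarith

theorem m2_avg (hX : Npc X gm) {f g : ℂ → X} {O : Set ℂ} (hf : LM f O) (hg : LM g O) {c : ℂ} {r R : ℝ}
    (hr : 0 < r) (hR : r ≤ R) (hc : closedBall c R ⊆ O) :
    (⨍ y in ball c r, dd f g y ^ 2) ≤ ⨍ y in ball c R, dd f g y ^ 2 := by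
  have hO := hf.opn
  obtain ⟨_, hE⟩ := avg_diff hO (Mg_lpo hf.lip hg.lip) hr hR hc
  have key : 0 ≤ ∫ s in r..R, (Real.pi * s ^ 3)⁻¹ *
      ∫ y in ball c s, fderiv ℝ (fun y => dd f g y ^ 2) y (y - c) := by
    refine intervalIntegral.integral_nonneg hR ?_
    intro s hs
    have hs0 : 0 < s := hr.trans_le hs.1
    have hcs : closedBall c s ⊆ O := (closedBall_subset_closedBall hs.2).trans hc
    rw [Mg_rad hO hf.lip hg.lip (ball_subset_closedBall.trans hcs)]
    have h1 := rad_mm hX hf hg hs0 hcs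
    have h2 : 0 ≤ ∫ y in ball c s, zz c s y * mm f g y :=
      setIntegral_nonneg measurableSet_ball (fun y hy => mul_nonneg (zz_nonneg hy) (mm_nonneg _ _ _))
    have hpi := Real.pi_pos
    exact mul_nonneg (by positivity) (by linarith)
  rw [← hE] at key
  linarith

theorem m2' (hX : Npc X gm) {f g : ℂ → X} {O : Set ℂ} (hf : LM f O) (hg : LM g O) :
    SubH (fun z => dist (f z) (g z) ^ 2) O := by
  exact ⟨lpo_cont hf.opn (Mg_lpo hf.lip hg.lip), fun x r R hr hR hc => m2_avg hX hf hg hr hR hc⟩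

end H33NM
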