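import Pool.Agent.H33.NM.Df

set_option autoImplicit false

/-!
# Row Mh: restriction of near-minimisers to smaller open sets

C ⊆ O' compact, g ∈ Lpo O', g = f on O' \ C. Let g' x := if x ∈ O' then g x else f x (Classical).
1. g' ∈ Lpo O: lpo_loc (H98.NX.Ea) needs near every x ∈ O a ball on which g' is Lipschitz. If x ∈ O': a closed ball around x in O' (O' open), g' = g there (Lpo g O' on this compact ball; lpo_ball). If x ∉ O' then x ∉ C; C is closed, so there is a ball around x
   disjoint from C and a closed ball contained in O (lpo_ball for f); on the smaller ball g' = f (inside O': g = f off C; outside: by definition).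
2. g' = f on O \ C. So en f C <= en g' C + ep (h.min).
3. en g' C = en g C: for x ∈ C ⊆ O' open, g' = g near x (sp_loc, H98.NX.Eb), setIntegral_congr_fun (C is compact so measurable).
-/

namespace H33NM

open H50NA H98NX MeasureTheory Set Filter Topology Metric

variable {X : Type} [MetricSpace X]

/-- gluing -/
theorem nm_mono {f : ℂ → X} {O O' : Set ℂ} {ep : ℝ} (h : NM f O ep) (hO : IsOpen O') (hs : O' ⊆ O) : NM f O' ep := by
  classical
  refine ⟨hO, lpo_mono hs h.lip, fun C hC hc g hg hgf => ?_⟩
  obtain ⟨g', hg'⟩ : ∃ g' : ℂ → X, g' = fun x => if x ∈ O' then g x else f x := ⟨_, rfl⟩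
  have hin : ∀ x ∈ O', g' x = g x := by
    intro x hx
    rw [hg']
    exact if_pos hx
  have hout : ∀ x, x ∉ O' → g' x = f x := by
    intro x hx
    rw [hg']
    exact if_neg hx
  have hoff : ∀ x, x ∉ C → g' x = f x := by
    intro x hx
    by_cases hx' : x ∈ O'
    · rw [hin x hx']
      exact hgf x ⟨hx', hx⟩
    · exact hout x hx'
  have hl : Lpo g' O := by
    refine lpo_loc fun x hx => ?_
    by_cases hx' : x ∈ O'
    · obtain ⟨r, hr, hrO, L, -, hL⟩ := lpo_ball hO hg hx'
      refine ⟨r, hr, L, fun y hy z hz => ?_⟩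
      have hy' := ball_subset_closedBall hy.2
      have hz' := ball_subset_closedBall hz.2
      rw [hin y (hrO hy'), hin z (hrO hz')]
      exact hL y hy' z hz'
    · have hxC : x ∉ C := fun h1 => hx' (hC h1)
      obtain ⟨r1, hr1, hr1C⟩ := Metric.isOpen_iff.1 hc.isClosed.isOpen_compl x hxC
      obtain ⟨r, hr, hrO, L, -, hL⟩ := lpo_ball h.opn h.lip hx
      refine ⟨min r1 r, lt_min hr1 hr, L, fun y hy z hz => ?_⟩
      have hy1 : y ∈ ball x r1 := ball_subset_ball (min_le_left _ _) hy.2
      have hz1 : z ∈ ball x r1 := ball_subset_ball (min_le_left _ _) hz.2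
      have hy' := ball_subset_closedBall (ball_subset_ball (min_le_right _ _) hy.2)
      have hz' := ball_subset_closedBall (ball_subset_ball (min_le_right _ _) hz.2)
      rw [hoff y (hr1C hy1), hoff z (hr1C hz1)]
      exact hL y hy' z hz'
  have h1 := h.min C (hC.trans hs) hc g' hl fun x hx => hoff x hx.2
  have h2 : en g' C = en g C := by
    unfold en
    refine setIntegral_congr_fun hc.isClosed.measurableSet fun x hx => ?_
    have h3 : g' =ᶠ[𝓝 x] g := by
      filter_upwards [hO.mem_nhds (hC hx)] with y hy
      exact hin y hy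
    show sp g' 1 x ^ 2 + sp g' Complex.I x ^ 2 = sp g 1 x ^ 2 + sp g Complex.I x ^ 2
    rw [sp_loc h3, sp_loc h3]
  rw [h2] at h1
  exact h1

end H33NM
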