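import Pool.Agent.H33.NM.Mf1

set_option autoImplicit false

/-!
# Row Mi1: energy under translations and scalings

G z := a + c z (a : ℂ, c > 0 real), O* := {z | a + c z ∈ O} (open: preimage).
1. int_aff: for any H : ℂ → ℝ and C: ∫_{z ∈ G⁻¹ C} H (G z) = (c²)⁻¹ ∫_C H (indicators, translation invariance, Measure.integral_comp_smul, finrank ℝ ℂ = 2; as in row Mf1; need C measurable for integral_indicator).
2. en_aff: f ∈ Lpo O, C ⊆ O measurable: en (f ∘ G) (G⁻¹ C) = en f C: sp (f ∘ G) t z = sp f (c • t) (G z) (sp_lin, H98.NX.Eb with L = multiplication by c, as a real linear map, e.g. c • LinearMap.id), and for a.e. y ∈ O: Dlim f y (sp_lim with volume) so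
   sp f (c • t) y = c * sp f t y (sp_smul, H98.NX.Ed). So ed (f ∘ G) z = c² ed f (G z) for a.e. z ∈ G⁻¹ O (the null set pulled back by G is null: apply int_aff-like measure statement, or Measure.addHaar_preimage_smul + measure_preimage_add), then 1.
3. lpo_aff: f ∈ Lpo O => f ∘ G ∈ Lpo O* (lpo_comp, H98.NX.Ea, with K = c).
-/

namespace H33NM

open H50NA H98NX MeasureTheory Set Filter Topology Metric

variable {X : Type} [MetricSpace X]

theorem Mi1_meas (a : ℂ) (c : ℝ) {C : Set ℂ} (hC : MeasurableSet C) :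
    MeasurableSet {z : ℂ | a + (c : ℂ) * z ∈ C} := by
  have h1 : Continuous fun z : ℂ => a + (c : ℂ) * z := by fun_prop
  exact h1.measurable hC

theorem int_aff (H : ℂ → ℝ) (a : ℂ) {c : ℝ} (hc : 0 < c) {C : Set ℂ} (hC : MeasurableSet C) :
    ∫ z in {z : ℂ | a + (c : ℂ) * z ∈ C}, H (a + (c : ℂ) * z) = (c ^ 2)⁻¹ * ∫ y in C, H y := by
  rw [← integral_indicator (Mi1_meas a c hC), ← integral_indicator hC]
  have h1 : (fun z : ℂ => {z : ℂ | a + (c : ℂ) * z ∈ C}.indicator (fun z => H (a + (c : ℂ) * z)) z) =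
      fun z : ℂ => (fun w : ℂ => C.indicator H (a + w)) (c • z) := by
    funext z
    rw [Complex.real_smul]
    show _ = C.indicator H (a + (c : ℂ) * z)
    by_cases hz : a + (c : ℂ) * z ∈ C
    · rw [indicator_of_mem (s := {z : ℂ | a + (c : ℂ) * z ∈ C}) hz, indicator_of_mem hz]
    · rw [indicator_of_notMem (s := {z : ℂ | a + (c : ℂ) * z ∈ C}) hz, indicator_of_notMem hz]
  have h2 := Measure.integral_comp_smul (volume : Measure ℂ) (fun w : ℂ => C.indicator H (a + w)) c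
  rw [h1, h2, Complex.finrank_real_complex,
    integral_add_left_eq_self (C.indicator H) a, smul_eq_mul, abs_of_nonneg (by positivity)]

theorem ae_aff {p : ℂ → Prop} (hp : ∀ᵐ y, p y) (a : ℂ) {c : ℝ} (hc : 0 < c) : ∀ᵐ z : ℂ, p (a + (c : ℂ) * z) := by
  rw [ae_iff] at hp ⊢
  have h1 : {z : ℂ | ¬ p (a + (c : ℂ) * z)} = (fun z : ℂ => c • z) ⁻¹' ((fun z : ℂ => a + z) ⁻¹' {y | ¬ p y}) := by
    ext z
    simp only [mem_ofPred_eq, mem_preimage, Complex.real_smul]
  rw [h1]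
  have h2 := Measure.addHaar_preimage_smul (volume : Measure ℂ) hc.ne' ((fun z : ℂ => a + z) ⁻¹' {y | ¬ p y})
  rw [measure_preimage_add, hp, mul_zero] at h2
  exact h2

theorem lpo_aff {f : ℂ → X} {O : Set ℂ} (hf : Lpo f O) (a : ℂ) {c : ℝ} (hc : 0 < c) :
    Lpo (fun z => f (a + (c : ℂ) * z)) {z | a + (c : ℂ) * z ∈ O} := by
  apply lpo_comp (G := fun z : ℂ => a + (c : ℂ) * z) (K := c) _ _ hf
  · intro x y
    rw [dist_eq_norm, dist_eq_norm]
    have h1 : a + (c : ℂ) * x - (a + (c : ℂ) * y) = (c : ℂ) * (x - y) := by ring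
    rw [h1, norm_mul, Complex.norm_real, Real.norm_eq_abs, abs_of_pos hc]
  · intro x hx
    exact hx

theorem en_aff {f : ℂ → X} {O C : Set ℂ} (hO : IsOpen O) (hf : Lpo f O) (a : ℂ) {c : ℝ} (hc : 0 < c)
    (hC : MeasurableSet C) (hCO : C ⊆ O) :
    en (fun z => f (a + (c : ℂ) * z)) {z : ℂ | a + (c : ℂ) * z ∈ C} = en f C := by
  have hae : ∀ᵐ z : ℂ, a + (c : ℂ) * z ∈ O → Dlim f (a + (c : ℂ) * z) :=
    ae_aff (p := fun y => y ∈ O → Dlim f y) (sp_lim volume hO hf) a hc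
  have hG : ∀ x y : ℂ, a + (c : ℂ) * (x + y) = (a + (c : ℂ) * x) + (c • (LinearMap.id : ℂ →ₗ[ℝ] ℂ)) y := by
    intro x y
    rw [LinearMap.smul_apply, LinearMap.id_apply, Complex.real_smul]
    ring
  have hsp : ∀ t z : ℂ, Dlim f (a + (c : ℂ) * z) →
      sp (fun z => f (a + (c : ℂ) * z)) t z = c * sp f t (a + (c : ℂ) * z) := by
    intro t z hz
    rw [sp_lin f (fun z : ℂ => a + (c : ℂ) * z) (c • (LinearMap.id : ℂ →ₗ[ℝ] ℂ)) hG t z, LinearMap.smul_apply,
      LinearMap.id_apply, sp_smul hz, abs_of_pos hc]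
  have h1 : en (fun z => f (a + (c : ℂ) * z)) {z : ℂ | a + (c : ℂ) * z ∈ C} =
      ∫ z in {z : ℂ | a + (c : ℂ) * z ∈ C}, c ^ 2 * ed f (a + (c : ℂ) * z) := by
    unfold en
    apply setIntegral_congr_ae (Mi1_meas a c hC)
    filter_upwards [hae] with z hz hzC
    have h2 := hz (hCO hzC)
    rw [hsp 1 z h2, hsp Complex.I z h2]
    unfold ed
    ring
  rw [h1, integral_const_mul, int_aff (ed f) a hc hC, ← mul_assoc, mul_inv_cancel₀ (by positivity), one_mul]
  rfl

end H33NM
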