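import Pool.Agent.H33.NM.Mi1

set_option autoImplicit false

/-!
# Row Mi2: translations and scalings of near-minimisers

G z := a + c z, O* := {z | a + c z ∈ O} (open: preimage under a continuous map). lpo_aff, en_aff: row Mi1.
1. nm_aff: C ⊆ O* compact, g ∈ Lpo O*, g = f ∘ G on O* \ C. G is a homeomorphism, G⁻¹(y) = (y - a)/c; g1 y := g ((y - a)/c) is in Lpo O (lpo_comp with constant 1/c), equals f off G(C) in O; C1 := G(C) compact ⊆ O. h.min: en f C1 <= en g1 C1 + ep. G⁻¹ C1 = C.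
   en_aff (row Mi1) for f: en (f ∘ G) C = en f C1. For g1: g1 ∘ G = g, en g C = en g1 C1. Done.
2. nm_trans: nm_aff with c = 1, rewriting a + ((1 : ℝ) : ℂ) * z = z + a (funext / set ext, simp, ring).
-/

namespace H33NM

open H50NA H98NX MeasureTheory Set Filter Topology Metric

variable {X : Type} [MetricSpace X]

theorem Mi2_GGi (a : ℂ) {c : ℝ} (hc : 0 < c) (y : ℂ) : a + (c : ℂ) * ((y - a) / (c : ℂ)) = y := by
  have h0 : (c : ℂ) ≠ 0 := Complex.ofReal_ne_zero.2 hc.ne'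
  rw [mul_div_cancel₀ _ h0, add_sub_cancel]

theorem Mi2_GiG (a : ℂ) {c : ℝ} (hc : 0 < c) (z : ℂ) : (a + (c : ℂ) * z - a) / (c : ℂ) = z := by
  have h0 : (c : ℂ) ≠ 0 := Complex.ofReal_ne_zero.2 hc.ne'
  rw [add_sub_cancel_left, mul_div_cancel_left₀ _ h0]

theorem nm_aff {f : ℂ → X} {O : Set ℂ} {ep : ℝ} (h : NM f O ep) (a : ℂ) {c : ℝ} (hc : 0 < c) :
    NM (fun z => f (a + (c : ℂ) * z)) {z | a + (c : ℂ) * z ∈ O} ep := by
  have hcont : Continuous fun z : ℂ => a + (c : ℂ) * z := by fun_prop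
  refine ⟨h.opn.preimage hcont, lpo_aff h.lip a hc, ?_⟩
  intro C hCO hC g hg hgf
  have hC1 : IsCompact ((fun z : ℂ => a + (c : ℂ) * z) '' C) := hC.image hcont
  have hC1O : (fun z : ℂ => a + (c : ℂ) * z) '' C ⊆ O := by
    rintro _ ⟨z, hz, rfl⟩
    exact hCO hz
  have hpre : {z : ℂ | a + (c : ℂ) * z ∈ (fun z : ℂ => a + (c : ℂ) * z) '' C} = C := by
    ext z
    constructor
    · rintro ⟨w, hw, hwz⟩
      have h1 : a + (c : ℂ) * w = a + (c : ℂ) * z := hwz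
      have h2 : w = z := by
        rw [← Mi2_GiG a hc w, ← Mi2_GiG a hc z, h1]
      rwa [← h2]
    · intro hz
      exact ⟨z, hz, rfl⟩
  have hdist : ∀ x y : ℂ, dist ((x - a) / (c : ℂ)) ((y - a) / (c : ℂ)) ≤ (1 / c) * dist x y := by
    intro x y
    rw [dist_eq_norm, dist_eq_norm, ← sub_div, sub_sub_sub_cancel_right, norm_div,
      Complex.norm_real, Real.norm_eq_abs, abs_of_pos hc]
    rw [div_eq_mul_one_div, mul_comm]
  have hg1 : Lpo (fun y => g ((y - a) / (c : ℂ))) O := by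
    refine lpo_comp (G := fun y : ℂ => (y - a) / (c : ℂ)) hdist ?_ hg
    intro x hx
    show a + (c : ℂ) * ((x - a) / (c : ℂ)) ∈ O
    rwa [Mi2_GGi a hc]
  have h1 := h.min _ hC1O hC1 (fun y => g ((y - a) / (c : ℂ))) hg1 (by
    intro x hx
    have h2 := hgf ((x - a) / (c : ℂ)) ⟨by
      show a + (c : ℂ) * ((x - a) / (c : ℂ)) ∈ O
      rw [Mi2_GGi a hc]
      exact hx.1, fun h3 => hx.2 ⟨_, h3, Mi2_GGi a hc x⟩⟩
    show g ((x - a) / (c : ℂ)) = f x
    rw [h2, Mi2_GGi a hc])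
  have h2 := en_aff h.opn h.lip a hc hC1.measurableSet hC1O
  have h3 := en_aff h.opn hg1 a hc hC1.measurableSet hC1O
  rw [hpre] at h2 h3
  have h4 : (fun z : ℂ => (fun y => g ((y - a) / (c : ℂ))) (a + (c : ℂ) * z)) = g := by
    funext z
    show g ((a + (c : ℂ) * z - a) / (c : ℂ)) = g z
    rw [Mi2_GiG a hc]
  have h5 : en g C = en (fun y => g ((y - a) / (c : ℂ))) ((fun z : ℂ => a + (c : ℂ) * z) '' C) := by
    rw [← h3]
    exact congrArg (fun q => en q C) h4.symm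
  rw [h2, h5]
  exact h1

/-- translations (`nm_aff` with `c = 1`) -/
theorem nm_trans {f : ℂ → X} {O : Set ℂ} {ep : ℝ} (h : NM f O ep) (a : ℂ) :
    NM (fun z => f (z + a)) {z | z + a ∈ O} ep := by
  have h1 := nm_aff h a one_pos
  have e : ∀ z : ℂ, a + ((1 : ℝ) : ℂ) * z = z + a := by
    intro z
    rw [Complex.ofReal_one, one_mul, add_comm]
  have e1 : (fun z : ℂ => f (a + ((1 : ℝ) : ℂ) * z)) = fun z => f (z + a) := by
    funext z
    rw [e]
  have e2 : {z : ℂ | a + ((1 : ℝ) : ℂ) * z ∈ O} = {z | z + a ∈ O} := by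
    ext z
    show a + ((1 : ℝ) : ℂ) * z ∈ O ↔ z + a ∈ O
    rw [e]
  rw [e1, e2] at h1
  exact h1

end H33NM
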