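import Pool.Agent.H33.NM.Mg
import Pool.Agent.H33.NM.Mh
import Pool.Agent.H33.NM.Mi2

/-!
# Row Mj: averages of squared speeds of a minimiser are nondecreasing

1. pair_shift: f LM on O, a : ℂ: f and f (· + a) are LM on O ∩ {z | z + a ∈ O} (nm_of_lm, nm_trans, nm_mono, lm_of_nm; the set is open). So m2' / m2_avg (row Mg) apply to this pair.
2. avg_mono'. closedBall x R compact ⊆ O open: there is d > 0 with cthickening d (closedBall x R) ⊆ O (IsCompact.exists_cthickening_subset_open), so for |h| ‖t‖ <= d: y + h t ∈ O for y ∈ closedBall x R. For h ≠ 0 small: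
   F_h y := dist (f (y + h • t)) (f y) ^ 2 / h ^ 2 satisfies ⨍_{ball x r} F_h <= ⨍_{ball x R} F_h (step 1 with a = h t, divided by h²).
   h -> 0: sp_conv (H98.NX.Ef) with C = closedBall x R, S = ball x r resp. S = ball x R: ∫_S F_h -> ∫_S sp f t ². With avg_int (row Mf1) both averages converge; le_of_tendsto_of_tendsto. (h • t with h real; (h : ℂ) * t = h • t.)
-/

set_option autoImplicit false

namespace H33NM

open H50NA H98NX MeasureTheory Set Filter Topology Metric

variable {X : Type} [MetricSpace X] {gm : X → X → ℝ → X}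

theorem pair_shift (hX : Npc X gm) {f : ℂ → X} {O : Set ℂ} (hf : LM f O) (a : ℂ) :
    SubH (fun z => dist (f (z + a)) (f z) ^ 2) (O ∩ {z | z + a ∈ O}) := by
  have h1 := nm_trans (nm_of_lm hf) a
  have hO : IsOpen (O ∩ {z | z + a ∈ O}) := hf.opn.inter h1.opn
  have h2 : LM f (O ∩ {z | z + a ∈ O}) := lm_of_nm (nm_mono (nm_of_lm hf) hO inter_subset_left)
  have h3 : LM (fun z => f (z + a)) (O ∩ {z | z + a ∈ O}) := lm_of_nm (nm_mono h1 hO inter_subset_right)
  exact m2' hX h3 h2

theorem avg_mono' (hX : Npc X gm) {f : ℂ → X} {O : Set ℂ} (h : LM f O) (t x : ℂ) {r R : ℝ}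
    (hr : 0 < r) (hR : r ≤ R) (hx : closedBall x R ⊆ O) :
    (⨍ y in ball x r, sp f t y ^ 2) ≤ ⨍ y in ball x R, sp f t y ^ 2 := by
  have hR0 : 0 < R := lt_of_lt_of_le hr hR
  obtain ⟨d, hd, hdO⟩ := (isCompact_closedBall x R).exists_cthickening_subset_open h.opn hx
  rw [avg_int _ x hr, avg_int _ x hR0]
  have T1 := (sp_conv volume h.opn h.lip (isCompact_closedBall x R) hx measurableSet_ball
    ((ball_subset_ball hR).trans ball_subset_closedBall) t).const_mul (Real.pi * r ^ 2)⁻¹
  have T2 := (sp_conv volume h.opn h.lip (isCompact_closedBall x R) hx measurableSet_ball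
    (ball_subset_closedBall (x := x) (ε := R)) t).const_mul (Real.pi * R ^ 2)⁻¹
  refine le_of_tendsto_of_tendsto T1 T2 ?_
  have hsm : ∀ᶠ s : ℝ in 𝓝[≠] 0, s ≠ 0 ∧ ‖s • t‖ < d := by
    have h1 : Tendsto (fun h : ℝ => ‖h • t‖) (𝓝[≠] 0) (𝓝 0) := by
      have h2 : Tendsto (fun h : ℝ => ‖h • t‖) (𝓝 0) (𝓝 ‖(0 : ℝ) • t‖) :=
        ((continuous_id.smul continuous_const).norm).tendsto 0
      rw [zero_smul, norm_zero] at h2
      exact h2.mono_left nhdsWithin_le_nhds
    filter_upwards [h1.eventually (gt_mem_nhds hd), self_mem_nhdsWithin] with h h2 h3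
    exact ⟨h3, h2⟩
  filter_upwards [hsm] with s hs
  have hsub : closedBall x R ⊆ O ∩ {z | z + s • t ∈ O} := by
    intro y hy
    refine ⟨hx hy, hdO ?_⟩
    refine Metric.mem_cthickening_of_dist_le _ y d _ hy ?_
    rw [dist_eq_norm, add_sub_cancel_left]
    exact hs.2.le
  have h5 := (pair_shift hX h (s • t)).mono x r R hr hR hsub
  rw [avg_int _ x hr, avg_int _ x hR0] at h5
  rw [integral_div, integral_div, ← mul_div_assoc, ← mul_div_assoc]
  exact div_le_div_of_nonneg_right h5 (sq_nonneg s)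

end H33NM
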