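import Pool.Agent.H33.NM.Df

set_option autoImplicit false

/-!
# Row Mk1: integrated difference quotients by slices

slice_le: f ∈ Lpo O, 0 < r, 0 < s, closedBall x (r + s ‖t‖) ⊆ O, and ∫_{ball (x + s' t) r} sp f t ² <= A for all 0 <= s' <= s. Then ∫_{ball x r} dist (f (y + s t)) (f y) ² dy <= s² A.
   line_le (H98.NX.Ee, volume): for a.e. y ∈ ball x r (segment y + [0,s] t in closedBall x (r + s‖t‖) ⊆ O): dist <= ∫_0^s sp f t (y + s' t) ds', squared <= s ∫_0^s sp f t (y + s' t)² ds' (Ee_cs).
   Integrate over y ∈ ball x r and exchange (Fubini / or Tonelli with lintegral as in the proof of `sp_int` in H98.NX.Ee, which is the same computation; copy it): ∫ dist² <= s ∫_0^s (∫_{ball x r} sp f t (y + s' t)² dy) ds' = s ∫_0^s (∫_{ball (x + s' t) r} sp f t²) ds' <= s * s * A.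
   (The function (y,s') ↦ (O.indicator (sp f t)) (y + s' t)² is jointly measurable (sp_meas), bounded on the compact set.)
-/

namespace H33NM

open H50NA H98NX MeasureTheory Set Filter Topology Metric

variable {X : Type} [MetricSpace X]

private theorem Mk1_shift (G : ℂ → ℝ) (x v : ℂ) (r : ℝ) :
    ∫ y in ball x r, G (y + v) = ∫ y in ball (x + v) r, G y := by
  have h1 : ball x r = (fun y : ℂ => y + v) ⁻¹' ball (x + v) r := by
    ext y
    simp only [mem_preimage, mem_ball, dist_add_right]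
  rw [h1]
  exact (measurePreserving_add_right volume v).setIntegral_preimage_emb
    (MeasurableEquiv.addRight v).measurableEmbedding G (ball (x + v) r)

theorem slice_le {f : ℂ → X} {O : Set ℂ} (hO : IsOpen O) (hf : Lpo f O) (t x : ℂ) {r s A : ℝ} (hr : 0 < r) (hs : 0 < s)
    (hx : closedBall x (r + s * ‖t‖) ⊆ O)
    (hA : ∀ s' : ℝ, 0 ≤ s' → s' ≤ s → ∫ y in ball (x + (s' : ℂ) * t) r, sp f t y ^ 2 ≤ A) :
    ∫ y in ball x r, dist (f (y + (s : ℂ) * t)) (f y) ^ 2 ≤ s ^ 2 * A := by
  have hC' : IsCompact (closedBall x (r + s * ‖t‖)) := isCompact_closedBall _ _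
  have hsub : ∀ y ∈ ball x r, ∀ u : ℝ, 0 ≤ u → u ≤ s → y + u • t ∈ closedBall x (r + s * ‖t‖) := by
    intro y hy u hu hus
    rw [mem_closedBall, dist_eq_norm]
    have e : y + u • t - x = (y - x) + u • t := by ring
    rw [e]
    have h1 : ‖y - x‖ < r := by
      rw [← dist_eq_norm]
      exact mem_ball.1 hy
    have h2 : ‖u • t‖ ≤ s * ‖t‖ := by
      rw [norm_smul, Real.norm_eq_abs, abs_of_nonneg hu]
      exact mul_le_mul_of_nonneg_right hus (norm_nonneg _)
    exact (norm_add_le _ _).trans (by linarith)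
  obtain ⟨d, hd, L, hL0, -, -, -, hsp⟩ := lpo_nbhd hO hf hC' hx
  have hSC : ball x r ⊆ closedBall x (r + s * ‖t‖) := fun y hy => by
    have := hsub y hy 0 le_rfl hs.le
    rwa [zero_smul, add_zero] at this
  have hSm : MeasurableSet (ball x r) := measurableSet_ball
  have hm : Measurable (O.indicator (sp f t)) := sp_meas hO (lpo_cont hO hf) t
  have hCm : MeasurableSet (closedBall x (r + s * ‖t‖)) := measurableSet_closedBall
  obtain ⟨g, hg⟩ : ∃ g : ℂ → ℝ, g = (closedBall x (r + s * ‖t‖)).indicator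
    (fun y => (O.indicator (sp f t) y) ^ 2) := ⟨_, rfl⟩
  have hgm : Measurable g := by
    rw [hg]
    exact (hm.pow_const 2).indicator hCm
  have hg0 : ∀ y, 0 ≤ g y := fun y => by
    rw [hg]
    exact indicator_nonneg (fun _ _ => sq_nonneg _) y
  have hgC : ∀ y ∈ closedBall x (r + s * ‖t‖), g y = sp f t y ^ 2 := fun y hy => by
    rw [hg, indicator_of_mem hy, indicator_of_mem (hx hy)]
  have hgb : ∀ y, g y ≤ (L * ‖t‖) ^ 2 := fun y => by
    by_cases hy : y ∈ closedBall x (r + s * ‖t‖)
    · rw [hgC y hy]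
      exact pow_le_pow_left₀ (sp_nonneg _ _ _) (hsp y hy t) 2
    · rw [hg, indicator_of_notMem hy]
      positivity
  have hfin : IsFiniteMeasure ((volume : Measure ℂ).restrict (ball x r)) := ⟨by
    rw [Measure.restrict_apply_univ]
    exact measure_ball_lt_top⟩
  have hgm2 : Measurable (fun q : ℂ × ℝ => g (q.1 + q.2 • t)) :=
    hgm.comp (measurable_fst.add (measurable_snd.smul_const t))
  have hprod : Integrable (fun q : ℂ × ℝ => g (q.1 + q.2 • t))
      (((volume : Measure ℂ).restrict (ball x r)).prod (volume.restrict (Ioc 0 s))) := by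
    refine Integrable.of_bound hgm2.aestronglyMeasurable ((L * ‖t‖) ^ 2)
      (Eventually.of_forall fun q => ?_)
    rw [Real.norm_eq_abs, abs_of_nonneg (hg0 _)]
    exact hgb _
  have hpt : ∀ᵐ y ∂((volume : Measure ℂ).restrict (ball x r)),
      dist (f (y + (s : ℂ) * t)) (f y) ^ 2 ≤ s * ∫ u in Ioc 0 s, g (y + u • t) := by
    filter_upwards [ae_restrict_of_ae (line_le volume hO hf t), ae_restrict_mem hSm] with y hy hyS
    obtain ⟨h1, h2, h3⟩ := hy s hs.le (fun u hu0 hus => hx (hsub y hyS u hu0 hus))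
    have h4 : ∫ u in Ioc 0 s, g (y + u • t) = ∫ u in (0:ℝ)..s, sp f t (y + u • t) ^ 2 := by
      rw [intervalIntegral.integral_of_le hs.le]
      refine setIntegral_congr_fun measurableSet_Ioc fun u hu => ?_
      exact hgC _ (hsub y hyS u hu.1.le hu.2)
    rw [h4]
    rw [Complex.real_smul] at h3
    exact (pow_le_pow_left₀ dist_nonneg h3 2).trans (Ee_cs hs.le h1 h2)
  have hRint : Integrable (fun y => s * ∫ u in Ioc 0 s, g (y + u • t))
      ((volume : Measure ℂ).restrict (ball x r)) := hprod.integral_prod_left.const_mul s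
  have hstep1 : ∫ y in ball x r, dist (f (y + (s : ℂ) * t)) (f y) ^ 2 ≤
      ∫ y in ball x r, (s * ∫ u in Ioc 0 s, g (y + u • t)) :=
    integral_mono_of_nonneg (Eventually.of_forall fun y => sq_nonneg _) hRint hpt
  have hsw : ∫ y in ball x r, (∫ u in Ioc 0 s, g (y + u • t)) =
      ∫ u in Ioc 0 s, (∫ y in ball x r, g (y + u • t)) :=
    integral_integral_swap (f := fun (y : ℂ) (u : ℝ) => g (y + u • t)) hprod
  have hs2 : ∀ u ∈ Ioc (0 : ℝ) s, ∫ y in ball x r, g (y + u • t) ≤ A := by
    intro u hu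
    refine le_trans (le_of_eq ?_) (hA u hu.1.le hu.2)
    rw [← Mk1_shift]
    refine setIntegral_congr_fun hSm fun y hy => ?_
    have h1 := hgC _ (hsub y hy u hu.1.le hu.2)
    rw [Complex.real_smul] at h1
    simp only [Complex.real_smul]
    exact h1
  have hstep3 : ∫ u in Ioc 0 s, (∫ y in ball x r, g (y + u • t)) ≤ s * A := by
    have hle : ∫ u in Ioc 0 s, (∫ y in ball x r, g (y + u • t)) ≤ ∫ u in Ioc 0 s, A := by
      refine integral_mono_of_nonneg (Eventually.of_forall fun u => integral_nonneg fun y => hg0 _)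
        (integrable_const _) ?_
      filter_upwards [ae_restrict_mem measurableSet_Ioc] with u hu
      exact hs2 u hu
    refine hle.trans (le_of_eq ?_)
    rw [setIntegral_const, smul_eq_mul]
    congr 1
    rw [Measure.real, Real.volume_Ioc, sub_zero, ENNReal.toReal_ofReal hs.le]
  rw [integral_const_mul, hsw] at hstep1
  refine hstep1.trans ((mul_le_mul_of_nonneg_left hstep3 hs.le).trans (le_of_eq ?_))
  ring

end H33NM
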