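import Pool.Agent.H33.NM.Mj
import Pool.Agent.H33.NM.Mk1

set_option autoImplicit false

/-!
# Row Mk2: pointwise bound of difference quotients

1. val_le: F SubH on O, closedBall x r ⊆ O, 0 < r: F x <= ⨍_{ball x r} F. Proof: ⨍_{ball x r'} F -> F x as r' -> 0+ (F is continuous at x, O open; for eps > 0 |F - F x| <= eps on ball x r' for small r': averages of a function with values in [F x - eps, F x + eps]) and
   ⨍_{r'} <= ⨍_r for r' <= r (mono). ge_of_tendsto or: for every eps: F x - eps <= ⨍_{r'} F <= ⨍_r F.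
2. dq_avg': F y = dist (f (y + s t)) (f y)² is SubH on O ∩ {y + s t ∈ O} (pair_shift, row Mj), closedBall x r is contained in it; val_le: F x <= ⨍_{ball x r} F = (π r²)⁻¹ ∫ F (avg_int, row Mf1) <= (π r²)⁻¹ s² (π r² A) with slice_le (row Mk1) for A' = π r² A
   (⨍ <= A means ∫ <= π r² A).
-/

namespace H33NM

open H50NA H98NX MeasureTheory Set Filter Topology Metric

variable {X : Type} [MetricSpace X] {gm : X → X → ℝ → X}

theorem val_le {F : ℂ → ℝ} {O : Set ℂ} (hO : IsOpen O) (hF : SubH F O) {x : ℂ} {r : ℝ} (hr : 0 < r)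
    (hx : closedBall x r ⊆ O) : F x ≤ ⨍ y in ball x r, F y := by
  apply le_of_forall_sub_le
  intro e he
  have hxO : x ∈ O := hx (mem_closedBall_self hr.le)
  have hcx : ContinuousAt F x := hF.cont.continuousAt (hO.mem_nhds hxO)
  obtain ⟨d, hd, hdF⟩ := Metric.continuousAt_iff.1 hcx e he
  obtain ⟨r', hr'⟩ : ∃ r', r' = min d r := ⟨_, rfl⟩
  have h0 : 0 < r' := by rw [hr']; exact lt_min hd hr
  have h1 : r' ≤ r := by rw [hr']; exact min_le_right _ _
  have h2 : r' ≤ d := by rw [hr']; exact min_le_left _ _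
  refine le_trans ?_ (hF.mono x r' r h0 h1 hx)
  have hc : closedBall x r' ⊆ O := (closedBall_subset_closedBall h1).trans hx
  have hint : IntegrableOn F (ball x r') :=
    ((hF.cont.mono hc).integrableOn_compact (isCompact_closedBall x r')).mono_set
      ball_subset_closedBall
  have hvol : volume (ball x r') ≠ ⊤ := measure_ball_lt_top.ne
  have hvol0 : volume (ball x r') ≠ 0 := (measure_ball_pos _ _ h0).ne'
  have hconst : ⨍ y in ball x r', (F x - e) = F x - e := setAverage_const hvol0 hvol _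
  rw [← hconst, avg_int _ _ h0, avg_int _ _ h0]
  apply mul_le_mul_of_nonneg_left _ (by positivity)
  apply setIntegral_mono_on (integrableOn_const hvol) hint measurableSet_ball
  intro y hy
  have h3 := hdF (lt_of_lt_of_le (mem_ball.1 hy) h2)
  rw [Real.dist_eq, abs_lt] at h3
  linarith [h3.1]

theorem dq_avg' (hX : Npc X gm) {f : ℂ → X} {O : Set ℂ} (h : LM f O) (t x : ℂ) {r s A : ℝ}
    (hr : 0 < r) (hs : 0 < s) (hx : closedBall x (r + s * ‖t‖) ⊆ O)
    (hA : ∀ s' : ℝ, 0 ≤ s' → s' ≤ s → (⨍ y in ball (x + (s' : ℂ) * t) r, sp f t y ^ 2) ≤ A) :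
    dist (f (x + (s : ℂ) * t)) (f x) ^ 2 ≤ s ^ 2 * A := by
  have hF := pair_shift hX h ((s : ℂ) * t)
  have hO : IsOpen (O ∩ {z | z + (s : ℂ) * t ∈ O}) := by
    refine h.opn.inter (h.opn.preimage ?_)
    fun_prop
  have hst : 0 ≤ s * ‖t‖ := by positivity
  have hnorm : ‖(s : ℂ) * t‖ = s * ‖t‖ := by
    rw [norm_mul, Complex.norm_real, Real.norm_of_nonneg hs.le]
  have hsub : closedBall x r ⊆ O ∩ {z | z + (s : ℂ) * t ∈ O} := by
    intro y hy
    rw [mem_closedBall, dist_eq_norm] at hy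
    constructor
    · apply hx
      rw [mem_closedBall, dist_eq_norm]
      linarith
    · apply hx
      rw [mem_closedBall, dist_eq_norm]
      have e : y + (s : ℂ) * t - x = (y - x) + (s : ℂ) * t := by ring
      rw [e]
      calc ‖(y - x) + (s : ℂ) * t‖ ≤ ‖y - x‖ + ‖(s : ℂ) * t‖ := norm_add_le _ _
        _ ≤ r + s * ‖t‖ := by rw [hnorm]; linarith
  have h1 := val_le hO hF hr hsub
  have hpr : 0 < Real.pi * r ^ 2 := by positivity
  have h2 := slice_le h.opn h.lip t x (A := Real.pi * r ^ 2 * A) hr hs hx (by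
    intro s' hs0 hs1
    have h3 := hA s' hs0 hs1
    rw [avg_int _ _ hr, inv_mul_le_iff₀ hpr] at h3
    exact h3)
  refine h1.trans ?_
  rw [avg_int _ _ hr, inv_mul_le_iff₀ hpr]
  calc _ ≤ s ^ 2 * (Real.pi * r ^ 2 * A) := h2
    _ = Real.pi * r ^ 2 * (s ^ 2 * A) := by ring

end H33NM
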