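import Pool.Agent.H33.NM.Mg
import Pool.Agent.H33.NM.Mh
import Pool.Agent.H33.NM.Mi2

set_option autoImplicit false

/-!
# Row Ml1: a near-minimiser and its translate

f ∈ NM O ep, fa := fun z => f (z + a) ∈ NM (O ∩ {z | z + a ∈ O}) ep (nm_trans, nm_mono), f too (nm_mono). Let W be this open set; closedBall y δ ⊆ W since ‖a‖ <= δ and closedBall y (2δ) ⊆ O.
1. sp_le_ed: f ∈ Lpo O: a.e. x ∈ O: sp f a x ^ 2 <= ‖a‖² ed f x: md_ae (H98.NX.Eh, volume) and sp_rot (drop the second square).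
2. D := ∫_{ball y δ} dist (f (x + a)) (f x)² <= ∫_{closedBall y (2δ)} (sp f a)² (sp_int, H98.NX.Ee, with h = 1, t = a, C' = closedBall y (2δ), S = ball y δ; 1 • a = a) <= ‖a‖² en f (closedBall y (2δ)) <= ‖a‖² M.
3. en f (closedBall y δ) <= M (en_mono, row Mc1). en fa (closedBall y δ) = en f (closedBall (y+a) δ) <= en f (closedBall y (2δ)) <= M: en_aff (row Mi1) with G z = a + 1 * z, C = closedBall (y + a) δ (rewrite a + 1 * z = z + a; the set {z | z + a ∈ closedBall (y+a) δ} = closedBall y δ).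
4. m2n (row Mg) for the pair (fa, f) on W, radii r <= δ, e1 = e2 = ep: ⨍_{ball y r} dist (f (x+a)) (f x)² <= ⨍_{ball y δ} + (δ - r) ((π r³)⁻¹ (sqrt e ((δ³ + 2δ²)(D + 2 (M + M)) + 1))), ⨍_{ball y δ} = (π δ²)⁻¹ D (avg_int, row Mf1), D <= ‖a‖² M <= δ² M, δ - r <= δ. (M >= 0 since en >= 0.)
-/

namespace H33NM

open H50NA H98NX MeasureTheory Set Filter Topology Metric

variable {X : Type} [MetricSpace X] {gm : X → X → ℝ → X}

theorem sp_le_ed (hX : Npc X gm) {f : ℂ → X} {O : Set ℂ} (hO : IsOpen O) (hf : Lpo f O) (a : ℂ) :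
    ∀ᵐ x, x ∈ O → sp f a x ^ 2 ≤ ‖a‖ ^ 2 * ed f x := by
  filter_upwards [md_ae volume hX hO hf] with x hx hxO
  have h := sp_rot (hx hxO) a
  have h2 := sq_nonneg (sp f (a * Complex.I) x)
  show sp f a x ^ 2 ≤ ‖a‖ ^ 2 * (sp f 1 x ^ 2 + sp f Complex.I x ^ 2)
  linarith

theorem shift_D (hX : Npc X gm) {f : ℂ → X} {O : Set ℂ} (hO : IsOpen O) (hf : Lpo f O) {y a : ℂ} {δ : ℝ}
    (hδ : 0 < δ) (hy : closedBall y (2 * δ) ⊆ O) (ha : ‖a‖ ≤ δ) :
    ∫ x in ball y δ, dist (f (x + a)) (f x) ^ 2 ≤ ‖a‖ ^ 2 * en f (closedBall y (2 * δ)) := by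
  have hC : IsCompact (closedBall y (2 * δ)) := isCompact_closedBall y (2 * δ)
  have h1 := sp_int volume hO hf hC hy (S := ball y δ) measurableSet_ball (h := 1) zero_le_one a
    (fun x hx s hs0 hs1 => by
      rw [mem_closedBall]
      have hx' : dist x y < δ := mem_ball.1 hx
      have e1 : dist (x + s • a) x ≤ ‖a‖ := by
        rw [dist_eq_norm, add_sub_cancel_left, norm_smul, Real.norm_eq_abs, abs_of_nonneg hs0]
        exact mul_le_of_le_one_left (norm_nonneg _) hs1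
      have e2 := dist_triangle (x + s • a) x y
      linarith)
  simp only [one_smul, one_pow, one_mul] at h1
  refine h1.trans ?_
  rw [en_eq, ← integral_const_mul]
  refine setIntegral_mono_on_ae (sp_sq_int volume hO hf hC hy hC.measurableSet subset_rfl a).1
    ((ed_int hO hf hC hy hC.measurableSet subset_rfl).const_mul _) hC.measurableSet ?_
  filter_upwards [sp_le_ed hX hO hf a] with x hx hxC
  exact hx (hy hxC)

theorem shift_avg (hX : Npc X gm) {f : ℂ → X} {O : Set ℂ} {ep e : ℝ} (hf : NM f O ep) (he : 0 < e)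
    (hee : 2 * ep ≤ e) {y a : ℂ} {δ r M : ℝ} (hr : 0 < r) (hrd : r ≤ δ) (hy : closedBall y (2 * δ) ⊆ O)
    (ha : ‖a‖ ≤ δ) (hed : Real.sqrt e * δ ^ 2 ≤ 1) (hM : en f (closedBall y (2 * δ)) ≤ M) :
    (⨍ x in ball y r, dist (f (x + a)) (f x) ^ 2) ≤ (Real.pi * δ ^ 2)⁻¹ * (‖a‖ ^ 2 * M) +
      δ * ((Real.pi * r ^ 3)⁻¹ * (Real.sqrt e * ((δ ^ 3 + 2 * δ ^ 2) * ((δ ^ 2 + 4) * M) + 1))) := by
  have hδ : 0 < δ := hr.trans_le hrd
  have hC2 : IsCompact (closedBall y (2 * δ)) := isCompact_closedBall y (2 * δ)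
  have hM0 : 0 ≤ M := (en_nonneg _ _).trans hM
  have htr : NM (fun z => f (z + a)) {z | z + a ∈ O} ep := nm_trans hf a
  have hWo : IsOpen (O ∩ {z | z + a ∈ O}) := hf.opn.inter htr.opn
  have hf1 : NM (fun z => f (z + a)) (O ∩ {z | z + a ∈ O}) ep := nm_mono htr hWo inter_subset_right
  have hf2 : NM f (O ∩ {z | z + a ∈ O}) ep := nm_mono hf hWo inter_subset_left
  have hsub1 : closedBall y δ ⊆ closedBall y (2 * δ) := closedBall_subset_closedBall (by linarith)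
  have hsub2 : closedBall (y + a) δ ⊆ closedBall y (2 * δ) := by
    refine closedBall_subset_closedBall' ?_
    rw [dist_eq_norm, add_sub_cancel_left]
    linarith
  have hyW : closedBall y δ ⊆ O ∩ {z | z + a ∈ O} := by
    intro x hx
    refine ⟨hy (hsub1 hx), hy (hsub2 ?_)⟩
    rw [mem_closedBall, dist_add_right]
    exact hx
  have key := m2n hX hf1 hf2 he (by linarith) hr hrd hyW hed
  have hD := shift_D hX hf.opn hf.lip hδ hy ha
  have hD' : (∫ x in ball y δ, dd (fun z => f (z + a)) f x ^ 2) ≤ ‖a‖ ^ 2 * M :=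
    hD.trans (mul_le_mul_of_nonneg_left hM (sq_nonneg _))
  have hE2 : en f (closedBall y δ) ≤ M := (en_mono hf.opn hf.lip hC2 hy hsub1).trans hM
  have hE1 : en (fun z => f (z + a)) (closedBall y δ) ≤ M := by
    have h1 := en_aff hf.opn hf.lip a (c := 1) one_pos (C := closedBall (y + a) δ)
      (isCompact_closedBall _ _).measurableSet (hsub2.trans hy)
    have e1 : (fun z => f (a + ((1 : ℝ) : ℂ) * z)) = fun z => f (z + a) := by
      funext z
      rw [Complex.ofReal_one, one_mul, add_comm]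
    have e2 : {z : ℂ | a + ((1 : ℝ) : ℂ) * z ∈ closedBall (y + a) δ} = closedBall y δ := by
      ext z
      rw [mem_setOf_eq, Complex.ofReal_one, one_mul, add_comm a z, mem_closedBall, dist_add_right,
        mem_closedBall]
    rw [e1, e2] at h1
    rw [h1]
    exact (en_mono hf.opn hf.lip hC2 hy hsub2).trans hM
  have havg : (⨍ x in ball y δ, dd (fun z => f (z + a)) f x ^ 2) ≤ (Real.pi * δ ^ 2)⁻¹ * (‖a‖ ^ 2 * M) := by
    rw [avg_int _ _ hδ]
    exact mul_le_mul_of_nonneg_left hD' (by positivity)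
  have hK : (∫ x in ball y δ, dd (fun z => f (z + a)) f x ^ 2) +
      2 * (en (fun z => f (z + a)) (closedBall y δ) + en f (closedBall y δ)) ≤ (δ ^ 2 + 4) * M := by
    have h1 : ‖a‖ ^ 2 * M ≤ δ ^ 2 * M :=
      mul_le_mul_of_nonneg_right (pow_le_pow_left₀ (norm_nonneg _) ha 2) hM0
    linarith
  have hpos : 0 ≤ (Real.pi * r ^ 3)⁻¹ := by positivity
  have hs : 0 ≤ Real.sqrt e := Real.sqrt_nonneg e
  have hB : Real.sqrt e * ((δ ^ 3 + 2 * δ ^ 2) * ((∫ x in ball y δ, dd (fun z => f (z + a)) f x ^ 2) +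
      2 * (en (fun z => f (z + a)) (closedBall y δ) + en f (closedBall y δ))) + 1) ≤
      Real.sqrt e * ((δ ^ 3 + 2 * δ ^ 2) * ((δ ^ 2 + 4) * M) + 1) :=
    mul_le_mul_of_nonneg_left (by
      have := mul_le_mul_of_nonneg_left hK (show 0 ≤ δ ^ 3 + 2 * δ ^ 2 by positivity)
      linarith) hs
  have hB0 : 0 ≤ (Real.pi * r ^ 3)⁻¹ * (Real.sqrt e * ((δ ^ 3 + 2 * δ ^ 2) * ((δ ^ 2 + 4) * M) + 1)) := by
    positivity
  have hfin : (δ - r) * ((Real.pi * r ^ 3)⁻¹ * (Real.sqrt e * ((δ ^ 3 + 2 * δ ^ 2) *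
      ((∫ x in ball y δ, dd (fun z => f (z + a)) f x ^ 2) +
      2 * (en (fun z => f (z + a)) (closedBall y δ) + en f (closedBall y δ))) + 1))) ≤
      δ * ((Real.pi * r ^ 3)⁻¹ * (Real.sqrt e * ((δ ^ 3 + 2 * δ ^ 2) * ((δ ^ 2 + 4) * M) + 1))) :=
    (mul_le_mul_of_nonneg_left (mul_le_mul_of_nonneg_left hB hpos) (by linarith)).trans
      (mul_le_mul_of_nonneg_right (by linarith) hB0)
  exact key.trans (add_le_add havg hfin)

end H33NM
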