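import Pool.Agent.H33.NM.Ml1

set_option autoImplicit false

/-!
# Row Ml2: passage to the limit for one translation and one ball (Fatou)

e n := 2 * ep n + 1/(n+1) > 0 (ep n >= 0: NM.nonneg), e n → 0, sqrt (e n) → 0, so sqrt (e n) δ² <= 1 for large n. For such n shift_avg (row Ml1), avg_int (row Mf1), multiplied by π r²:
  ∫_{ball y r} dist (fn n (x+a)) (fn n x)² <= b n := π r² ((π δ²)⁻¹ (‖a‖² M) + δ ((π r³)⁻¹ (sqrt (e n) (const)))), b n → π r² (π δ²)⁻¹ ‖a‖² M = r² (‖a‖² M / δ²).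
g n x := ENNReal.ofReal (dist (fn n (x + a)) (fn n x) ^ 2) is AEMeasurable on restrict (ball y r) (fn n continuous on O, x and x + a ∈ O), ∫⁻_{ball y r} g n = ofReal (∫ ...) (ofReal_integral_eq_lintegral_ofReal; integrable: dist_sq_int of H98.NX.Ee, or shift: continuous on closedBall y r compact).
For a.e. x ∈ ball y r: fn n x → u x, fn n (x+a) → u (x+a) (hlim and its translate: ae_trans of H98.NX.Ec with volume), so dist converges and ofReal of the square converges: liminf g n x = ofReal (dist (u (x+a)) (u x) ^ 2).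
lintegral_liminf_le' (AEMeasurable version of Fatou; lintegral_liminf_le' exists): ∫⁻ liminf <= liminf ∫⁻ g n <= liminf ofReal (b n) = ofReal (lim b n).
aes: x ↦ dist (u (x+a)) (u x) is a.e. limit of the functions dist (fn n (x+a)) (fn n x) which are continuous on the set: aestronglyMeasurable_of_tendsto_ae.
-/

namespace H33NM

open H50NA H98NX MeasureTheory Set Filter Topology Metric

variable {X : Type} [MetricSpace X] {gm : X → X → ℝ → X}

theorem Ml2_cont {f : ℂ → X} {O S : Set ℂ} (hO : IsOpen O) (hf : Lpo f O) {a : ℂ}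
    (hSO : ∀ x ∈ S, x ∈ O ∧ x + a ∈ O) : ContinuousOn (fun x => dist (f (x + a)) (f x)) S := by
  have hc := lpo_cont hO hf
  have h1 : ContinuousOn (fun x => f (x + a)) S :=
    hc.comp (by fun_prop) (fun x hx => (hSO x hx).2)
  have h2 : ContinuousOn f S := hc.mono (fun x hx => (hSO x hx).1)
  exact continuous_dist.comp_continuousOn (h1.prodMk h2)

theorem Ml2_lim {fn : ℕ → ℂ → X} {u : ℂ → X} {O S : Set ℂ}
    (hlim : ∀ᵐ y, y ∈ O → Tendsto (fun n => fn n y) atTop (𝓝 (u y))) {a : ℂ} (hS : MeasurableSet S)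
    (hSO : ∀ x ∈ S, x ∈ O ∧ x + a ∈ O) :
    ∀ᵐ x ∂(volume.restrict S), Tendsto (fun n => dist (fn n (x + a)) (fn n x)) atTop
      (𝓝 (dist (u (x + a)) (u x))) := by
  have h1 : ∀ᵐ x : ℂ, x + a ∈ O → Tendsto (fun n => fn n (x + a)) atTop (𝓝 (u (x + a))) :=
    ae_trans (mu := volume) hlim a
  filter_upwards [ae_restrict_of_ae (s := S) hlim, ae_restrict_of_ae (s := S) h1,
    ae_restrict_mem hS] with x hx hx' hxS
  exact (hx' (hSO x hxS).2).dist (hx (hSO x hxS).1)

theorem lim_aes {fn : ℕ → ℂ → X} {u : ℂ → X} {O S : Set ℂ} (hO : IsOpen O) (hf : ∀ n, Lpo (fn n) O)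
    (hlim : ∀ᵐ y, y ∈ O → Tendsto (fun n => fn n y) atTop (𝓝 (u y))) {a : ℂ} (hS : MeasurableSet S)
    (hSO : ∀ x ∈ S, x ∈ O ∧ x + a ∈ O) :
    AEStronglyMeasurable (fun x => dist (u (x + a)) (u x)) (volume.restrict S) :=
  aestronglyMeasurable_of_tendsto_ae atTop
    (fun n => (Ml2_cont hO (hf n) hSO).aestronglyMeasurable hS) (Ml2_lim hlim hS hSO)

theorem lim_fatou (hX : Npc X gm) {fn : ℕ → ℂ → X} {u : ℂ → X} {O : Set ℂ} {ep : ℕ → ℝ}
    (hf : ∀ n, NM (fn n) O (ep n)) (hep : Tendsto ep atTop (𝓝 0))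
    (hlim : ∀ᵐ y, y ∈ O → Tendsto (fun n => fn n y) atTop (𝓝 (u y)))
    {y a : ℂ} {δ r M : ℝ} (hr : 0 < r) (hrd : r ≤ δ) (hy : closedBall y (2 * δ) ⊆ O) (ha : ‖a‖ ≤ δ)
    (hM : ∀ n, en (fn n) (closedBall y (2 * δ)) ≤ M) :
    ∫⁻ x in ball y r, ENNReal.ofReal (dist (u (x + a)) (u x) ^ 2) ≤ ENNReal.ofReal (r ^ 2 * (‖a‖ ^ 2 * M / δ ^ 2)) := by
  have hδ : 0 < δ := hr.trans_le hrd
  have hO : IsOpen O := (hf 0).opn
  have hSO' : ∀ x ∈ closedBall y r, x ∈ O ∧ x + a ∈ O := by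
    intro x hx
    rw [mem_closedBall] at hx
    constructor
    · apply hy
      rw [mem_closedBall]
      linarith
    · apply hy
      rw [mem_closedBall]
      have h1 : dist (x + a) y ≤ dist (x + a) x + dist x y := dist_triangle _ _ _
      have h2 : dist (x + a) x = ‖a‖ := by rw [dist_eq_norm, add_sub_cancel_left]
      linarith
  have hSO : ∀ x ∈ ball y r, x ∈ O ∧ x + a ∈ O := fun x hx => hSO' x (ball_subset_closedBall hx)
  set e : ℕ → ℝ := fun n => 2 * ep n + 1 / ((n : ℝ) + 1) with he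
  have he0 : ∀ n, 0 < e n := by
    intro n
    have h1 := (hf n).nonneg
    have h2 : (0 : ℝ) < 1 / ((n : ℝ) + 1) := by positivity
    simp only [he]
    linarith
  have hee : ∀ n, 2 * ep n ≤ e n := by
    intro n
    have h2 : (0 : ℝ) < 1 / ((n : ℝ) + 1) := by positivity
    simp only [he]
    linarith
  have het : Tendsto e atTop (𝓝 0) := by
    have h1 := (hep.const_mul 2).add (tendsto_one_div_add_atTop_nhds_zero_nat (𝕜 := ℝ))
    rwa [mul_zero, add_zero] at h1
  have hst : Tendsto (fun n => Real.sqrt (e n)) atTop (𝓝 0) := by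
    have h1 := (Real.continuous_sqrt.tendsto 0).comp het
    rwa [Real.sqrt_zero] at h1
  set K : ℝ := (δ ^ 3 + 2 * δ ^ 2) * ((δ ^ 2 + 4) * M) + 1 with hK
  set b : ℕ → ℝ := fun n => (Real.pi * r ^ 2) * ((Real.pi * δ ^ 2)⁻¹ * (‖a‖ ^ 2 * M) +
      δ * ((Real.pi * r ^ 3)⁻¹ * (Real.sqrt (e n) * K))) with hb
  have hbt : Tendsto b atTop (𝓝 (r ^ 2 * (‖a‖ ^ 2 * M / δ ^ 2))) := by
    have h1 := ((((hst.mul_const K).const_mul (Real.pi * r ^ 3)⁻¹).const_mul δ).const_add
      ((Real.pi * δ ^ 2)⁻¹ * (‖a‖ ^ 2 * M))).const_mul (Real.pi * r ^ 2)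
    rw [zero_mul, mul_zero, mul_zero, add_zero] at h1
    have h2 : Real.pi * r ^ 2 * ((Real.pi * δ ^ 2)⁻¹ * (‖a‖ ^ 2 * M)) =
        r ^ 2 * (‖a‖ ^ 2 * M / δ ^ 2) := by
      have := Real.pi_pos.ne'
      field_simp
    rw [h2] at h1
    exact h1
  have hev : ∀ᶠ n in atTop, Real.sqrt (e n) * δ ^ 2 ≤ 1 := by
    have h1 := hst.mul_const (δ ^ 2)
    rw [zero_mul] at h1
    filter_upwards [h1.eventually (gt_mem_nhds one_pos)] with n hn
    exact hn.le
  have hint : ∀ n, IntegrableOn (fun x => dist (fn n (x + a)) (fn n x) ^ 2) (ball y r) := by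
    intro n
    have h1 : ContinuousOn (fun x => dist (fn n (x + a)) (fn n x) ^ 2) (closedBall y r) :=
      (Ml2_cont hO (hf n).lip hSO').pow 2
    exact (h1.integrableOn_compact (isCompact_closedBall y r)).mono_set ball_subset_closedBall
  have hbd : ∀ᶠ n in atTop, ∫⁻ x in ball y r, ENNReal.ofReal (dist (fn n (x + a)) (fn n x) ^ 2) ≤
      ENNReal.ofReal (b n) := by
    filter_upwards [hev] with n hn
    rw [← ofReal_integral_eq_lintegral_ofReal (hint n)
      (Eventually.of_forall fun x => sq_nonneg _)]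
    apply ENNReal.ofReal_le_ofReal
    have h1 := shift_avg hX (hf n) (he0 n) (hee n) hr hrd hy ha hn (hM n)
    rw [avg_int _ _ hr] at h1
    have h2 : 0 < Real.pi * r ^ 2 := by have := Real.pi_pos; positivity
    rw [inv_mul_le_iff₀ h2] at h1
    exact h1
  have hae : ∫⁻ x in ball y r, ENNReal.ofReal (dist (u (x + a)) (u x) ^ 2) =
      ∫⁻ x in ball y r, liminf (fun n => ENNReal.ofReal (dist (fn n (x + a)) (fn n x) ^ 2))
        atTop := by
    apply lintegral_congr_ae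
    filter_upwards [Ml2_lim hlim measurableSet_ball hSO] with x hx
    have h1 : Tendsto (fun n => ENNReal.ofReal (dist (fn n (x + a)) (fn n x) ^ 2)) atTop
        (𝓝 (ENNReal.ofReal (dist (u (x + a)) (u x) ^ 2))) :=
      (ENNReal.continuous_ofReal.tendsto _).comp (hx.pow 2)
    exact h1.liminf_eq.symm
  rw [hae]
  refine (lintegral_liminf_le' ?_).trans ?_
  · intro n
    exact ENNReal.measurable_ofReal.comp_aemeasurable (hint n).aestronglyMeasurable.aemeasurable
  · refine (Filter.liminf_le_liminf hbd).trans ?_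
    have h1 : Tendsto (fun n => ENNReal.ofReal (b n)) atTop
        (𝓝 (ENNReal.ofReal (r ^ 2 * (‖a‖ ^ 2 * M / δ ^ 2)))) :=
      (ENNReal.continuous_ofReal.tendsto _).comp hbt
    rw [h1.liminf_eq]

end H33NM
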