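import Mathlib

set_option autoImplicit false

/-!
# Row Ml3a: Lebesgue points (independent of everything else)

leb_le. It is enough (measure_null_of_locally_null, or a countable cover) that every y0 ∈ closedBall c ρ has a neighbourhood U with: a.e. y ∈ U: y ∈ closedBall c ρ → F y <= B. U := ball y0 (δ/2). Let
   f := (ball y0 δ).indicator (fun x => ENNReal.ofReal (F x)): AEMeasurable (ball y0 δ ⊆ ball c (ρ + δ)), ∫⁻ f = ∫⁻_{ball y0 δ} ofReal F < ∞ (h for y0, r = δ). VitaliFamily.ae_tendsto_lintegral_div for (Besicovitch.vitaliFamily volume) and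
   Besicovitch.tendsto_filterAt: for a.e. y: (∫⁻_{closedBall y r} f) / volume (closedBall y r) → f y as r → 0+. For y ∈ U ∩ closedBall c ρ and r < δ/2: closedBall y r ⊆ ball y0 δ, so the quotient is (∫⁻_{closedBall y r} ofReal F)/(volume (closedBall y r))
   = (∫⁻_{ball y r} ...)/... (closedBall =ᵐ ball, Measure.addHaar_sphere; or closedBall y r ⊆ ball y r' for all r' > r) <= ofReal (B π r²)/ofReal (π r²) = ofReal B (Complex.volume_closedBall). So ofReal (F y) = f y <= ofReal B, F y <= B (B >= 0).
-/

namespace H33NM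

open MeasureTheory Set Filter Topology Metric

theorem leb_le {F : ℂ → ℝ} {c : ℂ} {ρ δ B : ℝ} (hδ : 0 < δ) (hB : 0 ≤ B)
    (hF : AEStronglyMeasurable F (volume.restrict (ball c (ρ + δ))))
    (h : ∀ y ∈ closedBall c ρ, ∀ r : ℝ, 0 < r → r ≤ δ →
      ∫⁻ x in ball y r, ENNReal.ofReal (F x) ≤ ENNReal.ofReal (r ^ 2 * (Real.pi * B))) :
    ∀ᵐ y, y ∈ closedBall c ρ → F y ≤ B := by
  have main : ∀ y0 ∈ closedBall c ρ,
      ∀ᵐ y : ℂ, y ∈ closedBall c ρ → y ∈ ball y0 (δ / 2) → F y ≤ B := by
    intro y0 hy0
    have hsub : ball y0 δ ⊆ ball c (ρ + δ) := by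
      intro x hx
      rw [mem_ball] at hx ⊢
      rw [mem_closedBall] at hy0
      have := dist_triangle x y0 c
      linarith
    have hfm : AEMeasurable ((ball y0 δ).indicator fun x => ENNReal.ofReal (F x)) volume := by
      rw [aemeasurable_indicator_iff measurableSet_ball]
      exact (hF.mono_measure (Measure.restrict_mono hsub le_rfl)).aemeasurable.ennreal_ofReal
    have hfin : ∫⁻ y, (ball y0 δ).indicator (fun x => ENNReal.ofReal (F x)) y ≠ ⊤ := by
      rw [lintegral_indicator measurableSet_ball]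
      exact ne_top_of_le_ne_top ENNReal.ofReal_ne_top (h y0 hy0 δ hδ le_rfl)
    have hL := VitaliFamily.ae_tendsto_lintegral_div (Besicovitch.vitaliFamily (volume : Measure ℂ))
      hfm hfin
    filter_upwards [hL] with y hy hyc hyb
    have h1 := hy.comp (Besicovitch.tendsto_filterAt (volume : Measure ℂ) y)
    have h2 : (ball y0 δ).indicator (fun x => ENNReal.ofReal (F x)) y ≤ ENNReal.ofReal B := by
      refine le_of_tendsto h1 ?_
      filter_upwards [Ioo_mem_nhdsGT hδ] with r hr
      show (∫⁻ x in closedBall y r, (ball y0 δ).indicator (fun x => ENNReal.ofReal (F x)) x) /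
        volume (closedBall y r) ≤ ENNReal.ofReal B
      apply ENNReal.div_le_of_le_mul
      have hae : (closedBall y r : Set ℂ) =ᵐ[volume] ball y r := by
        refine (ae_eq_of_subset_of_measure_ge ball_subset_closedBall ?_
          measurableSet_ball.nullMeasurableSet ?_).symm
        · rw [Measure.addHaar_closedBall_eq_addHaar_ball]
        · exact measure_closedBall_lt_top.ne
      rw [setLIntegral_congr hae]
      have h3 : ∫⁻ x in ball y r, (ball y0 δ).indicator (fun x => ENNReal.ofReal (F x)) x ≤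
          ∫⁻ x in ball y r, ENNReal.ofReal (F x) :=
        lintegral_mono fun x => indicator_le_self _ _ x
      refine (h3.trans (h y hyc r hr.1 hr.2.le)).trans (le_of_eq ?_)
      rw [Complex.volume_closedBall, ENNReal.ofReal_mul (by positivity),
        ENNReal.ofReal_mul Real.pi_pos.le, ENNReal.ofReal_pow hr.1.le]
      have h4 : ENNReal.ofReal Real.pi = (NNReal.pi : ENNReal) := by
        rw [← NNReal.coe_real_pi, ENNReal.ofReal_coe_nnreal]
      rw [h4]
      ring
    rw [indicator_of_mem (ball_subset_ball (by linarith) hyb)] at h2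
    exact (ENNReal.ofReal_le_ofReal_iff hB).1 h2
  rw [ae_iff]
  apply measure_null_of_locally_null
  intro y0 hy0
  have hy1 : y0 ∈ closedBall c ρ := by
    by_contra hc
    exact hy0 fun h5 => absurd h5 hc
  refine ⟨{a : ℂ | ¬(a ∈ closedBall c ρ → F a ≤ B)} ∩ ball y0 (δ / 2), ?_, ?_⟩
  · exact inter_mem_nhdsWithin _ (ball_mem_nhds y0 (by linarith))
  · have h6 := main y0 hy1
    rw [ae_iff] at h6
    refine measure_mono_null ?_ h6
    rintro y ⟨hy2, hy3⟩
    intro h7
    exact hy2 fun h8 => h7 h8 hy3

end H33NM
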