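import Mathlib

set_option autoImplicit false

/-!
# Row Ml3b: chaining translations (independent of everything else)

chain_shift. b given; choose N >= 1 with ‖b‖/N <= δ, a := b/N. For every j < N: for a.e. y: y + j a ∈ closedBall c ρ → dist (u (y + j a + a)) (u (y + j a)) <= L ‖a‖ (h a translated by j a: measure preserving, `(measurePreserving_add_right volume (j a)).quasiMeasurePreserving.ae`).
   ae_all_iff. If y, y + b ∈ closedBall c ρ, then y + j a = (1 - j/N) y + (j/N) (y + b) ∈ closedBall c ρ (convex_closedBall). dist (u (y+b)) (u y) <= sum of N terms L ‖a‖ = L ‖b‖ (induction on j <= N: dist (u (y + j a)) (u y) <= j L ‖a‖).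
-/

namespace H33NM

open MeasureTheory Set Filter Topology Metric

variable {X : Type} [MetricSpace X]

theorem chain_shift {u : ℂ → X} {c : ℂ} {ρ δ L : ℝ} (hδ : 0 < δ) (hL : 0 ≤ L)
    (h : ∀ a : ℂ, ‖a‖ ≤ δ → ∀ᵐ y, y ∈ closedBall c ρ → dist (u (y + a)) (u y) ≤ L * ‖a‖) (b : ℂ) :
    ∀ᵐ y, y ∈ closedBall c ρ → y + b ∈ closedBall c ρ → dist (u (y + b)) (u y) ≤ L * ‖b‖ := by
  obtain ⟨N, hN⟩ := exists_nat_gt (‖b‖ / δ)
  have hb0 : 0 ≤ ‖b‖ / δ := by positivity
  have hN0 : (0 : ℝ) < N := lt_of_le_of_lt hb0 hN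
  set a : ℂ := (1 / (N : ℝ)) • b with ha
  have hna : ‖a‖ = ‖b‖ / N := by
    rw [ha, norm_smul, Real.norm_of_nonneg (by positivity)]
    ring
  have haδ : ‖a‖ ≤ δ := by
    rw [hna, div_le_iff₀ hN0]
    rw [div_lt_iff₀ hδ] at hN
    linarith
  have hae : ∀ j : ℕ, ∀ᵐ y : ℂ, y + (j : ℝ) • a ∈ closedBall c ρ →
      dist (u (y + (j : ℝ) • a + a)) (u (y + (j : ℝ) • a)) ≤ L * ‖a‖ :=
    fun j => (measurePreserving_add_right volume ((j : ℝ) • a)).quasiMeasurePreserving.ae (h a haδ)
  filter_upwards [ae_all_iff.2 hae] with y hy hy1 hy2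
  have hmem : ∀ j : ℕ, j ≤ N → y + (j : ℝ) • a ∈ closedBall c ρ := by
    intro j hj
    have hj' : (j : ℝ) / N ≤ 1 := by
      rw [div_le_one hN0]
      exact_mod_cast hj
    have e : y + (j : ℝ) • a = (1 - (j : ℝ) / N) • y + ((j : ℝ) / N) • (y + b) := by
      rw [ha, smul_add, sub_smul, one_smul, smul_smul, mul_one_div]
      abel
    rw [e]
    exact (convex_closedBall c ρ) hy1 hy2 (by linarith) (by positivity) (by ring)
  have key : ∀ j : ℕ, j ≤ N → dist (u (y + (j : ℝ) • a)) (u y) ≤ j * (L * ‖a‖) := by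
    intro j
    induction j with
    | zero =>
      intro _
      simp
    | succ j ih =>
      intro hj
      have h1 := ih (by omega)
      have h2 := hy j (hmem j (by omega))
      have e : y + ((j + 1 : ℕ) : ℝ) • a = y + (j : ℝ) • a + a := by
        push_cast
        rw [add_smul, one_smul, add_assoc]
      rw [e]
      have h3 := dist_triangle (u (y + (j : ℝ) • a + a)) (u (y + (j : ℝ) • a)) (u y)
      push_cast
      linarith
  have h1 := key N le_rfl
  have e1 : (N : ℝ) • a = b := by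
    rw [ha, smul_smul, mul_one_div, div_self hN0.ne', one_smul]
  have e2 : (N : ℝ) * (L * ‖a‖) = L * ‖b‖ := by
    rw [hna]
    field_simp
  rw [e1, e2] at h1
  exact h1

end H33NM
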