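import Mathlib

/-!
# Row Ml3c: Fubini for translations (independent of everything else)

fub_shift. Let A n y b := dist (fn n (y + b)) (fn n y), continuous on the open set Q := {(y,b) | y ∈ O ∧ y + b ∈ O} ⊆ ℂ × ℂ; T n := Q.indicator (A n) is measurable; Tlim := fun p => limsup (fun n => ENNReal.ofReal (T n p)) atTop is measurable (Measurable.limsup). Let
   G := {p | p.1 ∈ K → p.1 + p.2 ∈ K → Tlim p <= ENNReal.ofReal (L ‖p.2‖)}: measurable. For every b: a.e. y: (y,b) ∈ G: for a.e. y: fn n y → u y if y ∈ O and fn n (y+b) → u (y+b) if y + b ∈ O (translate of hlim), so for y, y+b ∈ K: Tlim (y,b) = ofReal (dist (u (y+b)) (u y)) <= ofReal (L ‖b‖)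
   (Tendsto.limsup_eq, ENNReal.continuous_ofReal). So Gᶜ has null sections for all b, so it is null for the product (Measure.measure_prod_null / measure_ae_null_of_prod_null with the order of the factors exchanged: Measure.prod_swap), and for a.e. y: for a.e. b: (y,b) ∈ G.
   For a.e. such y ∈ K (with fn n y → u y): for a.e. b (with y + b ∈ K → fn n (y+b) → u (y+b): translate of hlim by y) : dist (u (y+b)) (u y) <= L ‖b‖. Substitute b = y' - y (ae under translation): the claim.
-/

set_option autoImplicit false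

namespace H33NM

open MeasureTheory Set Filter Topology Metric

variable {X : Type} [MetricSpace X]

theorem fub_shift {fn : ℕ → ℂ → X} {u : ℂ → X} {O K : Set ℂ} (hO : IsOpen O) (hf : ∀ n, ContinuousOn (fn n) O)
    (hlim : ∀ᵐ y, y ∈ O → Tendsto (fun n => fn n y) atTop (𝓝 (u y))) (hK : MeasurableSet K) (hKO : K ⊆ O) {L : ℝ}
    (hL : 0 ≤ L) (h : ∀ b : ℂ, ∀ᵐ y, y ∈ K → y + b ∈ K → dist (u (y + b)) (u y) ≤ L * ‖b‖) :
    ∀ᵐ y, y ∈ K → ∀ᵐ y', y' ∈ K → dist (u y) (u y') ≤ L * dist y y' := by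
  classical
  obtain ⟨A, hA⟩ : ∃ A : ℕ → ℂ × ℂ → ENNReal, A = fun n p => ENNReal.ofReal (dist (fn n p.1) (fn n p.2)) :=
    ⟨_, rfl⟩
  obtain ⟨T, hT⟩ : ∃ T : ℕ → ℂ × ℂ → ENNReal, T = fun n => (O ×ˢ O).piecewise (A n) (fun _ => 0) :=
    ⟨_, rfl⟩
  have hTm : ∀ n, Measurable (T n) := by
    intro n
    rw [hT]
    refine ContinuousOn.measurable_piecewise ?_ continuousOn_const (hO.prod hO).measurableSet
    rw [hA]
    refine ENNReal.continuous_ofReal.comp_continuousOn ?_
    exact continuous_dist.comp_continuousOn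
      (((hf n).comp continuousOn_fst fun p hp => hp.1).prodMk
        ((hf n).comp continuousOn_snd fun p hp => hp.2))
  have hTl : Measurable (fun p => limsup (fun n => T n p) atTop) := Measurable.limsup hTm
  have key : ∀ y y' : ℂ, y ∈ K → y' ∈ K → (y ∈ O → Tendsto (fun n => fn n y) atTop (𝓝 (u y))) →
      (y' ∈ O → Tendsto (fun n => fn n y') atTop (𝓝 (u y'))) →
      limsup (fun n => T n (y, y')) atTop = ENNReal.ofReal (dist (u y) (u y')) := by
    intro y y' hy hy' h1 h2
    have e : (fun n => T n (y, y')) = fun n => ENNReal.ofReal (dist (fn n y) (fn n y')) := by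
      funext n
      rw [hT]
      show (O ×ˢ O).piecewise (A n) (fun _ => 0) (y, y') = _
      rw [Set.piecewise_eq_of_mem _ _ _ (show (y, y') ∈ O ×ˢ O from ⟨hKO hy, hKO hy'⟩), hA]
    rw [e]
    apply Tendsto.limsup_eq
    exact (ENNReal.continuous_ofReal.tendsto _).comp ((h1 (hKO hy)).dist (h2 (hKO hy')))
  obtain ⟨Bd, hBd⟩ : ∃ Bd : Set (ℂ × ℂ), Bd = (K ×ˢ K) ∩
      {p | ENNReal.ofReal (L * dist p.1 p.2) < limsup (fun n => T n p) atTop} := ⟨_, rfl⟩
  have hBm : MeasurableSet Bd := by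
    rw [hBd]
    refine (hK.prod hK).inter (measurableSet_lt ?_ hTl)
    have h1 : Continuous (fun p : ℂ × ℂ => L * dist p.1 p.2) := by fun_prop
    exact (ENNReal.continuous_ofReal.comp h1).measurable
  have h0 : (volume : Measure (ℂ × ℂ)) Bd = 0 := by
    have hmp := measurePreserving_prod_add_swap (volume : Measure ℂ) (volume : Measure ℂ)
    rw [Measure.volume_eq_prod, ← hmp.measure_preimage hBm.nullMeasurableSet,
      Measure.measure_prod_null (hmp.measurable hBm)]
    refine Eventually.of_forall fun b => ?_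
    show (volume : Measure ℂ) {y | (y, y + b) ∈ Bd} = 0
    have h2 : ∀ᵐ y : ℂ, (y + b ∈ O → Tendsto (fun n => fn n (y + b)) atTop (𝓝 (u (y + b)))) :=
      (eventually_add_right_iff (volume : Measure ℂ) b (p := fun y => y ∈ O →
        Tendsto (fun n => fn n y) atTop (𝓝 (u y)))).2 hlim
    have h3 : ∀ᵐ y : ℂ, (y, y + b) ∉ Bd := by
      filter_upwards [hlim, h2, h b] with y h4 h5 h6 h7
      rw [hBd] at h7
      obtain ⟨⟨h8, h9⟩, h10⟩ := h7
      have h11 := h6 h8 h9
      have h12 : ENNReal.ofReal (L * dist y (y + b)) < limsup (fun n => T n (y, y + b)) atTop := h10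
      rw [key y (y + b) h8 h9 h4 h5] at h12
      refine absurd h12 (not_lt.2 (ENNReal.ofReal_le_ofReal ?_))
      rw [dist_comm (u y)]
      refine h11.trans (le_of_eq ?_)
      rw [dist_self_add_right]
    rw [ae_iff] at h3
    simpa using h3
  have h1 : ∀ᵐ p ∂((volume : Measure ℂ).prod (volume : Measure ℂ)), p ∉ Bd := by
    rw [← Measure.volume_eq_prod, ae_iff]
    simpa using h0
  have h2 := Measure.ae_ae_of_ae_prod h1
  filter_upwards [hlim, h2] with y h3 h4 hy
  filter_upwards [hlim, h4] with y' h5 h6 hy'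
  by_contra h7
  rw [not_le] at h7
  apply h6
  rw [hBd]
  refine ⟨⟨hy, hy'⟩, ?_⟩
  show ENNReal.ofReal (L * dist y y') < limsup (fun n => T n (y, y')) atTop
  rw [key y y' hy hy' h3 h5]
  exact (ENNReal.ofReal_lt_ofReal_iff (lt_of_le_of_lt (mul_nonneg hL dist_nonneg) h7)).2 h7

end H33NM
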