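import Pool.Agent.H33.NM.Ml2
import Pool.Agent.H33.NM.Ml3a
import Pool.Agent.H33.NM.Ml3b
import Pool.Agent.H33.NM.Ml3c

set_option autoImplicit false

/-!
# Row Ml4: limits of near-minimisers are locally Lipschitz (a.e.)

1. lim_shift. For y ∈ closedBall c ρ and 0 < r <= δ: closedBall y (2δ) ⊆ closedBall c (ρ + 2δ) ⊆ O and en (fn n) (closedBall y (2δ)) <= M (en_mono, row Mc1). lim_fatou (row Ml2) gives the hypothesis of leb_le (rows Ml3a-c) for F x := dist (u (x+a)) (u x) ^ 2 and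
   B := ‖a‖² (M/(π δ²)) (π B = ‖a‖² M/δ²; M >= 0 by en_nonneg). Measurability: lim_aes (row Ml2), squared, with S = ball c (ρ + δ).
2. lim_lip. closedBall c ρ is compact in the open O: there is d > 0 with cthickening d (closedBall c ρ) ⊆ O (IsCompact.exists_cthickening_subset_open), cthickening_closedBall (or: a point of closedBall c (ρ + d) has distance <= d to closedBall c ρ): take δ = d/2: closedBall c (ρ + 2δ) ⊆ O. M from hM.
   L := sqrt (M/(π δ²)) (max M 0). lim_shift gives dist (u (y+a)) (u y) <= L ‖a‖ for ‖a‖ <= δ (abs_le_of_sq_le / Real.le_sqrt); chain_shift, fub_shift (rows Ml3a-c) with K = closedBall c ρ.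
-/

namespace H33NM

open H50NA H98NX MeasureTheory Set Filter Topology Metric

variable {X : Type} [MetricSpace X] {gm : X → X → ℝ → X}

theorem lim_shift (hX : Npc X gm) {fn : ℕ → ℂ → X} {u : ℂ → X} {O : Set ℂ} {ep : ℕ → ℝ}
    (hf : ∀ n, NM (fn n) O (ep n)) (hep : Tendsto ep atTop (𝓝 0))
    (hlim : ∀ᵐ y, y ∈ O → Tendsto (fun n => fn n y) atTop (𝓝 (u y)))
    {c : ℂ} {ρ δ M : ℝ} (hρ : 0 ≤ ρ) (hδ : 0 < δ) (hc : closedBall c (ρ + 2 * δ) ⊆ O)
    (hM : ∀ n, en (fn n) (closedBall c (ρ + 2 * δ)) ≤ M) {a : ℂ} (ha : ‖a‖ ≤ δ) :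
    ∀ᵐ y, y ∈ closedBall c ρ → dist (u (y + a)) (u y) ^ 2 ≤ ‖a‖ ^ 2 * (M / (Real.pi * δ ^ 2)) := by
  have hM0 : 0 ≤ M := (en_nonneg (fn 0) _).trans (hM 0)
  have hO : IsOpen O := (hf 0).opn
  have hB : 0 ≤ ‖a‖ ^ 2 * (M / (Real.pi * δ ^ 2)) := by
    have := Real.pi_pos
    positivity
  refine leb_le (F := fun y => dist (u (y + a)) (u y) ^ 2) hδ hB ?_ ?_
  · refine (lim_aes hO (fun n => (hf n).lip) hlim measurableSet_ball (fun x hx => ?_)).pow 2
    have hx' : dist x c < ρ + δ := hx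
    refine ⟨hc (mem_closedBall.2 (by linarith)), hc (mem_closedBall.2 ?_)⟩
    have h1 : dist (x + a) c ≤ dist (x + a) x + dist x c := dist_triangle _ _ _
    have h2 : dist (x + a) x = ‖a‖ := by rw [dist_eq_norm, add_sub_cancel_left]
    rw [h2] at h1
    linarith
  · intro y hy r hr hrd
    have hy' : dist y c ≤ ρ := hy
    have hsub : closedBall y (2 * δ) ⊆ closedBall c (ρ + 2 * δ) :=
      closedBall_subset_closedBall' (by linarith)
    have h1 := lim_fatou hX hf hep hlim hr hrd (hsub.trans hc) ha (M := M)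
      (fun n => (en_mono hO (hf n).lip (isCompact_closedBall c (ρ + 2 * δ)) hc hsub).trans (hM n))
    have e : r ^ 2 * (Real.pi * (‖a‖ ^ 2 * (M / (Real.pi * δ ^ 2)))) =
        r ^ 2 * (‖a‖ ^ 2 * M / δ ^ 2) := by
      have := Real.pi_pos.ne'
      field_simp
    rw [e]
    exact h1

theorem lim_lip (hX : Npc X gm) {fn : ℕ → ℂ → X} {u : ℂ → X} {O : Set ℂ} {ep : ℕ → ℝ}
    (hf : ∀ n, NM (fn n) O (ep n)) (hep : Tendsto ep atTop (𝓝 0))
    (hM : ∀ C ⊆ O, IsCompact C → ∃ M : ℝ, ∀ n, en (fn n) C ≤ M)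
    (hlim : ∀ᵐ y, y ∈ O → Tendsto (fun n => fn n y) atTop (𝓝 (u y)))
    {c : ℂ} {ρ : ℝ} (hρ : 0 ≤ ρ) (hc : closedBall c ρ ⊆ O) :
    ∃ L : ℝ, 0 ≤ L ∧ ∀ᵐ y, y ∈ closedBall c ρ → ∀ᵐ y', y' ∈ closedBall c ρ → dist (u y) (u y') ≤ L * dist y y' := by
  have hO : IsOpen O := (hf 0).opn
  obtain ⟨d, hd, hdO⟩ := (isCompact_closedBall c ρ).exists_cthickening_subset_open hO hc
  rw [cthickening_closedBall hd.le hρ] at hdO
  obtain ⟨δ, hδ⟩ : ∃ δ : ℝ, δ = d / 2 := ⟨_, rfl⟩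
  have hδ0 : 0 < δ := by rw [hδ]; linarith
  have hc2 : closedBall c (ρ + 2 * δ) ⊆ O := by
    have e : ρ + 2 * δ = d + ρ := by rw [hδ]; ring
    rw [e]
    exact hdO
  obtain ⟨M, hM⟩ := hM _ hc2 (isCompact_closedBall c (ρ + 2 * δ))
  have hM0 : 0 ≤ M := (en_nonneg (fn 0) _).trans (hM 0)
  have hq : 0 ≤ M / (Real.pi * δ ^ 2) := by
    have := Real.pi_pos
    positivity
  refine ⟨√(M / (Real.pi * δ ^ 2)), Real.sqrt_nonneg _, ?_⟩
  refine fub_shift hO (fun n => lpo_cont hO (hf n).lip) hlim measurableSet_closedBall hc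
    (Real.sqrt_nonneg _) (chain_shift hδ0 (Real.sqrt_nonneg _) ?_)
  intro a ha
  filter_upwards [lim_shift hX hf hep hlim hρ hδ0 hc2 hM ha] with y hy hyc
  have h1 := hy hyc
  have h2 : ‖a‖ ^ 2 * (M / (Real.pi * δ ^ 2)) = (√(M / (Real.pi * δ ^ 2)) * ‖a‖) ^ 2 := by
    rw [mul_pow, Real.sq_sqrt hq, mul_comm]
  rw [h2] at h1
  exact (abs_le_of_sq_le_sq' h1 (by positivity)).2

end H33NM
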