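import Pool.Agent.H33.NM.Mk2
import Pool.Agent.H33.NM.Ml4

set_option autoImplicit false

/-!
# MP_b319aa_NA, block M: the statements of the interface `XI` (helper50) which belong to block M
-/

namespace H33NM

open H50NA H98NX MeasureTheory Set Filter Topology Metric

variable {X : Type} [MetricSpace X] {gm : X → X → ℝ → X}

theorem m2 (hX : Npc X gm) {f g : ℂ → X} {O : Set ℂ} (hf : LM f O) (hg : LM g O) :
    SubH (fun z => dist (f z) (g z) ^ 2) O := m2' hX hf hg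

theorem lm_const (p : X) {O : Set ℂ} (hO : IsOpen O) : LM (fun _ : ℂ => p) O :=
  lm_of_nm (nm_const p hO)

theorem lm_mono {f : ℂ → X} {O O' : Set ℂ} (h : LM f O) (hO : IsOpen O') (hs : O' ⊆ O) : LM f O' :=
  lm_of_nm (nm_mono (nm_of_lm h) hO hs)

theorem lm_trans {f : ℂ → X} {O : Set ℂ} (h : LM f O) (a : ℂ) : LM (fun z => f (z + a)) {z | z + a ∈ O} :=
  lm_of_nm (nm_trans (nm_of_lm h) a)

theorem lm_scale {f : ℂ → X} {O : Set ℂ} (h : LM f O) (a : ℂ) {c : ℝ} (hc : 0 < c) :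
    LM (fun z => f (a + (c : ℂ) * z)) {z | a + (c : ℂ) * z ∈ O} :=
  lm_of_nm (nm_aff (nm_of_lm h) a hc)

theorem avg_mono (hX : Npc X gm) {f : ℂ → X} {O : Set ℂ} (h : LM f O) (t x : ℂ) {r R : ℝ}
    (hr : 0 < r) (hR : r ≤ R) (hx : closedBall x R ⊆ O) :
    (⨍ y in ball x r, sp f t y ^ 2) ≤ ⨍ y in ball x R, sp f t y ^ 2 := avg_mono' hX h t x hr hR hx

theorem dq_avg (hX : Npc X gm) {f : ℂ → X} {O : Set ℂ} (h : LM f O) (t x : ℂ) {r s A : ℝ}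
    (hr : 0 < r) (hs : 0 < s) (hx : closedBall x (r + s * ‖t‖) ⊆ O)
    (hA : ∀ s' : ℝ, 0 ≤ s' → s' ≤ s → (⨍ y in ball (x + (s' : ℂ) * t) r, sp f t y ^ 2) ≤ A) :
    dist (f (x + (s : ℂ) * t)) (f x) ^ 2 ≤ s ^ 2 * A := dq_avg' hX h t x hr hs hx hA

end H33NM
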